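import Pool.Agent.H14.KM.BPlaces

/-!
# Milnor K-theory: Milnor's sequence, Bass-Tate norms and Weil reciprocity (targets A of KEW)
-/

set_option autoImplicit false
set_option linter.unusedSectionVars false

open Polynomial IsDedekindDomain

namespace Pool.Agent.H14.KM

open Pool.Agent.H62
open Pool.Agent.H62.MK (MilnorK cup one0 DV KS placeDV finPlace zeroPlace invSubst tameInf OnlyAt
  MonicIrr polyNorm simpleNorm towerNorm)

universe u v w

/-- the place of a monic irreducible polynomial -/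
def toMIP {F : Type u} [Field F] (P : MonicIrr F) : MIP F := ⟨P.1, P.2.1, P.2.2⟩

theorem tame_finPlace_eq_zero {F : Type u} [Field F] (P : F[X]) [h : Fact (Irreducible P)]
    (hP : P.Monic) (n : ℕ) (a : MilnorK (RatFunc F) (n + 1)) :
    MK.tame (finPlace P) n a = 0 ↔
      tQ (RatFunc F) (⟨P, hP, h.out⟩ : MIP F) (toKM (RatFunc F) (n + 1) a) = 0 := by
  have e := toKM_finPlace (⟨P, hP, h.out⟩ : MIP F) n a
  constructor
  · intro h1
    rw [← e]
    exact (congrArg _ h1).trans (map_zero _)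
  · intro h1
    rw [h1] at e
    exact toKM_injective n (e.trans (map_zero _).symm)

theorem comps_map {R : Type u} {S : Type v} [CommRing R] [CommRing S] (f : R →+* S) (y : KM R)
    (n : ℕ) : comps (map f y) n = MK.map f n (comps y n) := by
  revert n
  induction y using induction_on with
  | h1 =>
    intro n
    rw [map_one, comps_one, comps_one]
    cases n with
    | zero =>
      change one0 = MK.map f 0 one0
      unfold one0
      rw [MK.map_sym]
      congr 1
      funext i
      exact i.elim0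
    | succ n => exact (map_zero (MK.map f (n + 1))).symm
  | h0 => intro n; simp
  | hadd x y hx hy => intro n; rw [map_add, map_add, map_add, Pi.add_apply, Pi.add_apply, hx, hy,
      map_add]
  | hneg x hx => intro n; rw [map_neg, map_neg, map_neg, Pi.neg_apply, Pi.neg_apply, hx, map_neg]
  | hmul a y hy =>
    intro n
    rw [map_mul, map_sym, comps_sym_mul, comps_sym_mul]
    cases n with
    | zero => rw [sh_zero, sh_zero, map_zero]
    | succ n => rw [sh_succ, sh_succ, hy, MK.map_cup]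

theorem jC_eq (F : Type u) [Field F] : jC F (RatFunc F) = algebraMap F (RatFunc F) := by
  unfold jC
  ext c
  simp

theorem pf_EX : MK.T_EX.{u} := by
  intro F _ P hP hm n x
  obtain ⟨c, c1, c2, c3⟩ := exists_tQ (K := RatFunc F) n (P.natDegree + 1)
    (⟨P, hm, hP.out⟩ : MIP F) (Nat.lt_succ_self _) (toKM _ n x) (toKM_mem n x)
  obtain ⟨a, rfl⟩ := exists_toKM c1
  refine ⟨a, ?_, ?_⟩
  · intro Q hQ hQm hne
    rw [tame_finPlace_eq_zero Q hQm]
    exact c3 _ fun h => hne (congrArg MIP.Q h)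
  · apply toKM_injective n
    rw [← c2]
    exact toKM_finPlace (⟨P, hm, hP.out⟩ : MIP F) n a

theorem pf_UN : MK.T_UN.{u} := by
  intro F _ n a h
  have h1 : toKM (RatFunc F) (n + 1) a ∈ L (RatFunc F) F 1 := exact_L fun Q => by
    have h2 := h ⟨Q.Q, Q.monic, Q.irr⟩
    have : Fact (Irreducible Q.Q) := ⟨Q.irr⟩
    exact (tame_finPlace_eq_zero Q.Q Q.monic n a).1 h2
  obtain ⟨y, hy⟩ := exists_map h1
  refine ⟨comps y (n + 1), ?_⟩
  rw [← comps_map, ← jC_eq, hy, comps_toKM]

theorem inf_const {F : Type u} [Field F] (y : KM F) :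
    ((pvInf F).ts (RatFunc F)).tame (map (algebraMap F (RatFunc F)) y) = 0 := by
  refine TS.tame_map_eq_zero _ _ (fun a => ?_) y
  have ha : (C (a : F) : F[X]) ≠ 0 := C_ne_zero.2 a.ne_zero
  rw [(pvInf F).ts_v' ha (by
    change algebraMap F (RatFunc F) a = _
    rw [← jC_eq]
    rfl)]
  change -((C (a : F)).natDegree : ℤ) = 0
  rw [natDegree_C]
  rfl

theorem pf_INF0 : MK.T_INF0.{u} := by
  intro F _ n b
  apply toKM_injective n
  rw [toKM_tameInf, toKM_map, inf_const, map_zero]

theorem pf_FINP : MK.T_FINP.{u} := by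
  intro F _ n a
  have h := finite_tQ (F := F) (toKM (RatFunc F) (n + 1) a)
  have h2 : {P : MonicIrr F | MK.tame (finPlace P.1) n a ≠ 0} ⊆
      toMIP ⁻¹' {Q : MIP F | tQ (RatFunc F) Q (toKM (RatFunc F) (n + 1) a) ≠ 0} := by
    intro P hP h3
    exact hP ((tame_finPlace_eq_zero P.1 P.2.1 n a).2 h3)
  refine Set.Finite.subset (Set.Finite.preimage ?_ h) h2
  intro P _ Q _ hPQ
  exact Subtype.ext (congrArg MIP.Q hPQ)

/-- elements without finite residues have no residue at infinity -/
theorem inf_zero {F : Type u} [Field F] {n : ℕ} {a : MilnorK (RatFunc F) (n + 1)}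
    (h : ∀ P : MonicIrr F, MK.tame (finPlace P.1) n a = 0) : tameInf F n a = 0 := by
  obtain ⟨b, rfl⟩ := pf_UN F n a h
  exact pf_INF0 F n b

theorem exists_norm {F : Type u} [Field F] (P : F[X]) [hP : Fact (Irreducible P)] (hm : P.Monic)
    (n : ℕ) : ∃ N : MilnorK (AdjoinRoot P) n →+ MilnorK F n,
      ∀ a, OnlyAt P n a → N (MK.tame (finPlace P) n a) = -tameInf F n a := by
  choose a ha1 ha2 using pf_EX F P hm n
  have key : ∀ b : MilnorK (RatFunc F) (n + 1), OnlyAt P n b → MK.tame (finPlace P) n b = 0 →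
      tameInf F n b = 0 := by
    intro b hb hb0
    apply inf_zero
    rintro ⟨Q, hQm, hQ⟩
    by_cases h : Q = P
    · subst h
      exact hb0
    · have : Fact (Irreducible Q) := ⟨hQ⟩
      exact hb Q hQm h
  refine ⟨⟨⟨fun x => -tameInf F n (a x), ?_⟩, ?_⟩, ?_⟩
  · rw [key (a 0) (ha1 0) (ha2 0), neg_zero]
  · intro x y
    simp only
    have h := key (a (x + y) - a x - a y) (fun Q _ hQm hne => by
      rw [map_sub, map_sub, ha1 _ Q hQm hne, ha1 _ Q hQm hne, ha1 _ Q hQm hne]
      simp) (by rw [map_sub, map_sub, ha2, ha2, ha2]; abel)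
    rw [map_sub, map_sub] at h
    have h1 : tameInf F n (a (x + y)) = tameInf F n (a x) + tameInf F n (a y) := by
      rw [sub_sub] at h
      exact sub_eq_zero.1 h
    rw [h1]
    abel
  · intro b hb
    change -tameInf F n (a _) = _
    have h := key (a (MK.tame (finPlace P) n b) - b) (fun Q _ hQm hne => by
      rw [map_sub, ha1 _ Q hQm hne, hb Q hQm hne, sub_zero]) (by rw [map_sub, ha2, sub_self])
    rw [map_sub] at h
    rw [sub_eq_zero.1 h]

theorem pf_PN : MK.T_PN.{u} := by
  intro F _ P hP hm n a ha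
  unfold polyNorm
  rw [dif_pos (exists_norm P hm n)]
  exact (exists_norm P hm n).choose_spec a ha

theorem pf_REC : MK.T_REC.{u} := by
  classical
  intro F _ n a
  have hf := pf_FINP F n a
  have hex : ∀ P : MonicIrr F, ∃ b : MilnorK (RatFunc F) (n + 1), OnlyAt P.1 n b ∧
      MK.tame (finPlace P.1) n b = MK.tame (finPlace P.1) n a := fun P => pf_EX F P.1 P.2.1 n _
  choose b hb1 hb2 using hex
  have hsup : (Function.support fun P : MonicIrr F =>
      polyNorm P.1 n (MK.tame (finPlace P.1) n a)) ⊆ hf.toFinset := by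
    intro P hP
    rw [Set.Finite.coe_toFinset]
    intro h
    apply hP
    simp only
    rw [h, map_zero]
  rw [finsum_eq_sum_of_support_subset _ hsup]
  have h1 : ∀ P : MonicIrr F, polyNorm P.1 n (MK.tame (finPlace P.1) n a) = -tameInf F n (b P) := by
    intro P
    rw [← hb2 P]
    exact pf_PN F P.1 P.2.1 n (b P) (hb1 P)
  have h2 : tameInf F n (a - ∑ P ∈ hf.toFinset, b P) = 0 := by
    apply inf_zero
    intro Q
    rw [map_sub, map_sum]
    by_cases hQ : MK.tame (finPlace Q.1) n a = 0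
    · rw [hQ, zero_sub, neg_eq_zero]
      refine Finset.sum_eq_zero fun P hP => ?_
      have hP' : MK.tame (finPlace P.1) n a ≠ 0 := hf.mem_toFinset.1 hP
      refine hb1 P Q.1 Q.2.1 fun h => ?_
      apply hP'
      have : Q = P := Subtype.ext h
      rw [← this]
      exact hQ
    · rw [Finset.sum_eq_single Q, hb2, sub_self]
      · intro P _ hne
        exact hb1 P Q.1 Q.2.1 fun h => hne (Subtype.ext h.symm)
      · intro h
        exact absurd (hf.mem_toFinset.2 hQ) h
  rw [map_sub, map_sum] at h2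
  rw [Finset.sum_congr rfl fun P _ => h1 P, Finset.sum_neg_distrib, sub_eq_zero.1 h2]
  simp

theorem pf_DEG : MK.T_DEG.{u} := by
  intro F _ P hP hm
  have hP0 : P ≠ 0 := hm.ne_zero
  obtain ⟨Q, hQ⟩ : ∃ Q : MIP F, Q = ⟨P, hm, hP.out⟩ := ⟨_, rfl⟩
  obtain ⟨a, ha⟩ : ∃ a : MilnorK (RatFunc F) (0 + 1), a = cup (uP (RatFunc F) P) one0 := ⟨_, rfl⟩
  have hta : toKM (RatFunc F) (0 + 1) a = sym (uP (RatFunc F) P) := by
    rw [ha, toKM_cup, toKM_one0, mul_one]
  have h1 : OnlyAt P 0 a := by
    intro R hR hRm hne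
    rw [tame_finPlace_eq_zero R hRm, hta]
    unfold tQ
    rw [TS.tame_sym]
    have : ((⟨R, hRm, hR.out⟩ : MIP F).pd.pv.ts (RatFunc F)).v (uP (RatFunc F) P) = 0 := by
      rw [PV.ts_v' _ hP0 (uP_val hP0)]
      exact PrimeData.pv_v_unit _ (not_dvd_of_ne hRm hR.out hm hP.out fun h => hne h.symm)
    rw [this, zero_smul]
  have h2 : MK.tame (finPlace P) 0 a = one0 := by
    apply toKM_injective 0
    have := toKM_finPlace (⟨P, hm, hP.out⟩ : MIP F) 0 a
    rw [toKM_one0]
    refine this.trans ?_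
    rw [hta]
    unfold tQ
    rw [TS.tame_sym]
    have h3 : ((⟨P, hm, hP.out⟩ : MIP F).pd.pv.ts (RatFunc F)).v (uP (RatFunc F) P) = 1 :=
      uP_P_v (⟨P, hm, hP.out⟩ : MIP F).pd
    rw [h3, one_smul]
  have h3 := pf_PN F P hm 0 a h1
  rw [h2] at h3
  rw [h3]
  apply toKM_injective 0
  rw [map_neg, toKM_tameInf, hta, TS.tame_sym, map_nsmul, toKM_one0,
    (pvInf F).ts_v' hP0 (uP_val hP0)]
  change -(-(P.natDegree : ℤ) • (1 : KM F)) = P.natDegree • (1 : KM F)
  rw [neg_smul, neg_neg, natCast_zsmul]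

end Pool.Agent.H14.KM
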