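import Pool.Agent.H14.KM.Ker

/-!
# Milnor K-groups of stalks
-/

open CategoryTheory TopologicalSpace Opposite Function

universe u v

namespace Pool.Agent.H14.KM

variable {X : TopCat.{u}} (O : X.Presheaf CommRingCat.{u}) (x : X)

/-- Restriction of units. -/
noncomputable def resU {V W : Opens X} (h : W ≤ V) : (O.obj (op V))ˣ →* (O.obj (op W))ˣ :=
  Units.map (O.map (homOfLE h).op).hom.toMonoidHom

/-- The germ of a unit. -/
noncomputable def gerU (V : Opens X) (hV : x ∈ V) : (O.obj (op V))ˣ →* (O.stalk x)ˣ :=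
  Units.map (O.germ V x hV).hom.toMonoidHom

variable {O x}

theorem resU_val {V W : Opens X} (h : W ≤ V) (a : (O.obj (op V))ˣ) :
    (resU O h a : O.obj (op W)) = O.map (homOfLE h).op a := rfl

theorem gerU_val {V : Opens X} (hV : x ∈ V) (a : (O.obj (op V))ˣ) :
    (gerU O x V hV a : O.stalk x) = O.germ V x hV a := rfl

theorem gerU_resU {V W : Opens X} (hV : x ∈ V) (hW : x ∈ W) (h : W ≤ V)
    (a : (O.obj (op V))ˣ) : gerU O x W hW (resU O h a) = gerU O x V hV a := by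
  apply Units.ext
  rw [gerU_val, resU_val, gerU_val]
  exact TopCat.Presheaf.germ_res_apply O (homOfLE h) x hW _

theorem exists_res_eq {V : Opens X} (hV : x ∈ V) {s t : O.obj (op V)}
    (h : O.germ V x hV s = O.germ V x hV t) :
    ∃ (W : Opens X) (_ : x ∈ W) (hW : W ≤ V),
      O.map (homOfLE hW).op s = O.map (homOfLE hW).op t := by
  obtain ⟨W, hxW, i1, i2, e⟩ := O.germ_eq x hV hV s t h
  exact ⟨W, hxW, leOfHom i1, e⟩

theorem exists_common {ι : Type v} [Finite ι] (V : ι → Opens X) (hV : ∀ j, x ∈ V j) :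
    ∃ W : Opens X, x ∈ W ∧ ∀ j, W ≤ V j := by
  refine ⟨⟨⋂ j, (V j : Set X), isOpen_iInter_of_finite fun j => (V j).2⟩, ?_, ?_⟩
  · show x ∈ ⋂ j, (V j : Set X)
    exact Set.mem_iInter.2 hV
  · intro j y hy
    exact Set.mem_iInter.1 hy j

theorem exists_unit_germ (b : (O.stalk x)ˣ) :
    ∃ (V : Opens X) (hV : x ∈ V) (a : (O.obj (op V))ˣ), gerU O x V hV a = b := by
  obtain ⟨V1, h1, s, hs⟩ := O.exists_germ_eq (b : O.stalk x)
  obtain ⟨V2, h2, t, ht⟩ := O.exists_germ_eq ((b⁻¹ : (O.stalk x)ˣ) : O.stalk x)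
  have hV : x ∈ V1 ⊓ V2 := ⟨h1, h2⟩
  set s' : O.obj (op (V1 ⊓ V2)) := O.map (homOfLE inf_le_left).op s with hs'
  set t' : O.obj (op (V1 ⊓ V2)) := O.map (homOfLE inf_le_right).op t with ht'
  have e1 : O.germ _ x hV s' = b := by
    rw [← hs]
    exact TopCat.Presheaf.germ_res_apply O _ x hV s
  have e2 : O.germ _ x hV t' = ((b⁻¹ : (O.stalk x)ˣ) : O.stalk x) := by
    rw [← ht]
    exact TopCat.Presheaf.germ_res_apply O _ x hV t
  have e3 : O.germ _ x hV (s' * t') = O.germ _ x hV 1 := by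
    rw [map_mul, e1, e2, map_one]
    exact b.mul_inv
  obtain ⟨W, hxW, hW, e⟩ := exists_res_eq hV e3
  rw [map_mul, map_one] at e
  refine ⟨W, hxW, ⟨O.map (homOfLE hW).op s', O.map (homOfLE hW).op t', e, by
    rw [mul_comm]; exact e⟩, ?_⟩
  apply Units.ext
  rw [gerU_val, ← e1]
  exact TopCat.Presheaf.germ_res_apply O _ x hxW s'

theorem exists_units_germ {n : ℕ} (b : Fin n → (O.stalk x)ˣ) :
    ∃ (V : Opens X) (hV : x ∈ V) (a : Fin n → (O.obj (op V))ˣ), ∀ j, gerU O x V hV (a j) = b j := by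
  choose V hV a ha using fun j => exists_unit_germ (b j)
  obtain ⟨W, hxW, hW⟩ := exists_common V hV
  exact ⟨W, hxW, fun j => resU O (hW j) (a j), fun j => by rw [gerU_resU (hV j), ha]⟩

theorem exists_resU_eq {n : ℕ} {V : Opens X} (hV : x ∈ V) {a a' : Fin n → (O.obj (op V))ˣ}
    (h : ∀ j, gerU O x V hV (a j) = gerU O x V hV (a' j)) :
    ∃ (W : Opens X) (_ : x ∈ W) (hW : W ≤ V), ∀ j, resU O hW (a j) = resU O hW (a' j) := by
  have h1 : ∀ j, ∃ (W : Opens X) (_ : x ∈ W) (hW : W ≤ V), resU O hW (a j) = resU O hW (a' j) := by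
    intro j
    obtain ⟨W, hxW, hW, e⟩ := exists_res_eq hV (congrArg Units.val (h j))
    exact ⟨W, hxW, hW, Units.ext e⟩
  choose W hxW hW e using h1
  obtain ⟨W', hxW', hW'⟩ := exists_common (fun o : Option (Fin n) => o.elim V W)
    (fun o => by cases o; exacts [hV, hxW _])
  have h0 : W' ≤ V := hW' none
  have h2 : ∀ j, W' ≤ W j := fun j => hW' (some j)
  refine ⟨W', hxW', h0, fun j => ?_⟩
  have e2 : ∀ c : (O.obj (op V))ˣ, resU O h0 c = resU O (h2 j) (resU O (hW j) c) := by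
    intro c
    apply Units.ext
    rw [resU_val, resU_val, resU_val, ← ConcreteCategory.comp_apply, ← O.map_comp]
    rfl
  rw [e2, e2, e]

section lift

variable {n : ℕ} {A : Type v} [AddCommGroup A]

/-- A compatible family of homomorphisms on the Milnor K-groups of neighbourhoods of `x` gives a
homomorphism on the Milnor K-group of the stalk. -/
theorem exists_stalk_lift (F : ∀ V : Opens X, x ∈ V → (H62.MK.MilnorK (O.obj (op V)) n →+ A))
    (hF : ∀ (V W : Opens X) (hV : x ∈ V) (hW : x ∈ W) (h : W ≤ V) (a : Fin n → (O.obj (op V))ˣ),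
      F W hW (H62.MK.sym fun j => resU O h (a j)) = F V hV (H62.MK.sym a)) :
    ∃ ψ : H62.MK.MilnorK (O.stalk x) n →+ A, ∀ (V : Opens X) (hV : x ∈ V)
      (s : H62.MK.MilnorK (O.obj (op V)) n),
      ψ (H62.MK.map (O.germ V x hV).hom n s) = F V hV s := by
  have key : ∀ (V : Opens X) (hV : x ∈ V) (a a' : Fin n → (O.obj (op V))ˣ),
      (∀ j, gerU O x V hV (a j) = gerU O x V hV (a' j)) →
      F V hV (H62.MK.sym a) = F V hV (H62.MK.sym a') := by
    intro V hV a a' h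
    obtain ⟨W, hxW, hW, e⟩ := exists_resU_eq hV h
    rw [← hF V W hV hxW hW, ← hF V W hV hxW hW, funext e]
  have key2 : ∀ (V : Opens X) (hV : x ∈ V) (c0 c1 c2 : Fin n → (O.obj (op V))ˣ)
      (b : Fin n → (O.stalk x)ˣ) (i : Fin n) (y z : (O.stalk x)ˣ),
      (∀ j, gerU O x V hV (c0 j) = update b i (y * z) j) →
      (∀ j, gerU O x V hV (c1 j) = update b i y j) →
      (∀ j, gerU O x V hV (c2 j) = update b i z j) →
      F V hV (H62.MK.sym c0) = F V hV (H62.MK.sym c1) + F V hV (H62.MK.sym c2) := by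
    intro V hV c0 c1 c2 b i y z g0 g1 g2
    have e0 : F V hV (H62.MK.sym c0) = F V hV (H62.MK.sym (update c1 i (c1 i * c2 i))) := by
      refine key V hV _ _ fun j => ?_
      by_cases hj : j = i
      · subst hj
        rw [update_self, map_mul, g0, g1, g2, update_self, update_self, update_self]
      · rw [update_of_ne hj, g0, g1, update_of_ne hj, update_of_ne hj]
    have e2 : F V hV (H62.MK.sym c2) = F V hV (H62.MK.sym (update c1 i (c2 i))) := by
      refine key V hV _ _ fun j => ?_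
      by_cases hj : j = i
      · subst hj
        rw [update_self]
      · rw [update_of_ne hj, g2, g1, update_of_ne hj, update_of_ne hj]
    rw [e0, e2, H62.MK.sym_update_mul, update_eq_self, map_add]
  have hex : ∃ ψ : H62.MK.MilnorK (O.stalk x) n →+ A,
      ∀ t : (Σ V : {V : Opens X // x ∈ V}, (Fin n → (O.obj (op V.1))ˣ)),
        ψ (H62.MK.sym fun j => gerU O x t.1.1 t.1.2 (t.2 j))
          = F t.1.1 t.1.2 (H62.MK.sym t.2) := by
    refine exists_hom_of_lifts (n := n)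
      (T := Σ V : {V : Opens X // x ∈ V}, (Fin n → (O.obj (op V.1))ˣ))
      (fun t j => gerU O x t.1.1 t.1.2 (t.2 j)) ?_ (fun t => F t.1.1 t.1.2 (H62.MK.sym t.2))
      ?_ ?_ ?_
    · intro b
      obtain ⟨V, hV, a, ha⟩ := exists_units_germ b
      exact ⟨⟨⟨V, hV⟩, a⟩, funext ha⟩
    · rintro ⟨⟨V, hV⟩, a⟩ ⟨⟨V', hV'⟩, a'⟩ h
      have hW : x ∈ V ⊓ V' := ⟨hV, hV'⟩
      have e1 := hF V (V ⊓ V') hV hW inf_le_left a
      have e2 := hF V' (V ⊓ V') hV' hW inf_le_right a'
      show F V hV (H62.MK.sym a) = F V' hV' (H62.MK.sym a')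
      rw [← e1, ← e2]
      refine key _ hW _ _ fun j => ?_
      rw [gerU_resU hV hW, gerU_resU hV' hW]
      exact congrFun h j
    · rintro ⟨⟨V, hV⟩, a⟩ ⟨⟨V₁, hV₁⟩, a₁⟩ ⟨⟨V₂, hV₂⟩, a₂⟩ b i y z h h1 h2
      have hW : x ∈ V ⊓ (V₁ ⊓ V₂) := ⟨hV, hV₁, hV₂⟩
      have l0 : V ⊓ (V₁ ⊓ V₂) ≤ V := inf_le_left
      have l1 : V ⊓ (V₁ ⊓ V₂) ≤ V₁ := inf_le_right.trans inf_le_left
      have l2 : V ⊓ (V₁ ⊓ V₂) ≤ V₂ := inf_le_right.trans inf_le_right
      show F V hV (H62.MK.sym a) = F V₁ hV₁ (H62.MK.sym a₁) + F V₂ hV₂ (H62.MK.sym a₂)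
      rw [← hF V _ hV hW l0 a, ← hF V₁ _ hV₁ hW l1 a₁, ← hF V₂ _ hV₂ hW l2 a₂]
      have g0 : ∀ j, gerU O x _ hW (resU O l0 (a j)) = update b i (y * z) j := fun j => by
        rw [gerU_resU hV hW]; exact congrFun h j
      have g1 : ∀ j, gerU O x _ hW (resU O l1 (a₁ j)) = update b i y j := fun j => by
        rw [gerU_resU hV₁ hW]; exact congrFun h1 j
      have g2 : ∀ j, gerU O x _ hW (resU O l2 (a₂ j)) = update b i z j := fun j => by
        rw [gerU_resU hV₂ hW]; exact congrFun h2 j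
      exact key2 _ hW _ _ _ b i y z g0 g1 g2
    · rintro ⟨⟨V, hV⟩, a⟩ i hi h
      have h1 : O.germ V x hV ((a ⟨i, by omega⟩ : O.obj (op V)) + (a ⟨i + 1, hi⟩ : O.obj (op V)))
          = O.germ V x hV 1 := by
        rw [map_add, map_one]
        exact h
      obtain ⟨W, hxW, hW, e⟩ := exists_res_eq hV h1
      show F V hV (H62.MK.sym a) = 0
      rw [← hF V W hV hxW hW, H62.MK.sym_steinberg _ i hi, map_zero]
      rw [map_add, map_one] at e
      exact e
  obtain ⟨ψ, hψ⟩ := hex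
  refine ⟨ψ, fun V hV s => ?_⟩
  have h1 : ψ.comp (H62.MK.map (O.germ V x hV).hom n) = F V hV := by
    refine H62.MK.hom_ext fun a => ?_
    rw [AddMonoidHom.comp_apply, H62.MK.map_sym]
    exact hψ ⟨⟨V, hV⟩, a⟩
  exact DFunLike.congr_fun h1 s

end lift

section germ

variable {n : ℕ}

/-- Every element of the Milnor K-group of the stalk comes from a neighbourhood. -/
theorem exists_map_germ (y : H62.MK.MilnorK (O.stalk x) n) :
    ∃ (V : Opens X) (hV : x ∈ V) (s : H62.MK.MilnorK (O.obj (op V)) n),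
      H62.MK.map (O.germ V x hV).hom n s = y := by
  have hres : ∀ (V W : Opens X) (hV : x ∈ V) (hW : x ∈ W) (h : W ≤ V)
      (s : H62.MK.MilnorK (O.obj (op V)) n),
      H62.MK.map (O.germ W x hW).hom n (H62.MK.map (O.map (homOfLE h).op).hom n s)
        = H62.MK.map (O.germ V x hV).hom n s := by
    intro V W hV hW h s
    have e : (H62.MK.map (O.germ W x hW).hom n).comp (H62.MK.map (O.map (homOfLE h).op).hom n)
        = H62.MK.map (O.germ V x hV).hom n := by
      refine H62.MK.hom_ext fun a => ?_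
      rw [AddMonoidHom.comp_apply, H62.MK.map_sym, H62.MK.map_sym, H62.MK.map_sym]
      congr 1
      funext j
      exact gerU_resU hV hW h (a j)
    exact DFunLike.congr_fun e s
  refine H62.MK.MilnorK.induction (p := fun y => ∃ (V : Opens X) (hV : x ∈ V)
    (s : H62.MK.MilnorK (O.obj (op V)) n), H62.MK.map (O.germ V x hV).hom n s = y) y
    ⟨⊤, trivial, 0, map_zero _⟩ ?_ ?_ ?_
  · intro b
    obtain ⟨V, hV, a, ha⟩ := exists_units_germ b
    refine ⟨V, hV, H62.MK.sym a, ?_⟩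
    rw [H62.MK.map_sym]
    exact congrArg H62.MK.sym (funext ha)
  · rintro _ ⟨V, hV, s, rfl⟩
    exact ⟨V, hV, -s, map_neg _ _⟩
  · rintro _ _ ⟨V, hV, s, rfl⟩ ⟨V', hV', s', rfl⟩
    refine ⟨V ⊓ V', ⟨hV, hV'⟩, H62.MK.map (O.map (homOfLE inf_le_left).op).hom n s
      + H62.MK.map (O.map (homOfLE inf_le_right).op).hom n s', ?_⟩
    rw [map_add, hres V, hres V']

end germ

end Pool.Agent.H14.KM
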