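import Pool.Agent.H14.KM.Bridge

/-!
# Milnor K-theory: the places of `F(t)`
-/

set_option autoImplicit false
set_option linter.unusedSectionVars false

open Polynomial IsDedekindDomain

namespace Pool.Agent.H14.KM

open Pool.Agent.H62
open Pool.Agent.H62.MK (MilnorK cup one0 DV KS placeDV finPlace zeroPlace invSubst tameInf)

universe u v w

variable {F : Type u} [Field F] {K : Type w} [Field K] [Algebra F[X] K] [IsFractionRing F[X] K]

theorem unit_frac (a : Kˣ) : ∃ f g : F[X], f ≠ 0 ∧ g ≠ 0 ∧ a = uP K f * (uP K g)⁻¹ := by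
  obtain ⟨⟨f, g⟩, hf, hg, h⟩ := PV.exists_frac (D := F[X]) a
  refine ⟨f, g, hf, hg, ?_⟩
  rw [eq_mul_inv_iff_mul_eq]
  ext
  rw [Units.val_mul, uP_val hf, uP_val hg]
  exact h

/-- two homomorphisms which agree on polynomials agree -/
theorem ext_units {G : Type v} [CommGroup G] {φ ψ : Kˣ → G}
    (hφ : ∀ a b, φ (a * b) = φ a * φ b) (hψ : ∀ a b, ψ (a * b) = ψ a * ψ b)
    (h : ∀ f : F[X], f ≠ 0 → φ (uP K f) = ψ (uP K f)) (a : Kˣ) : φ a = ψ a := by
  obtain ⟨f, g, hf, hg, rfl⟩ := unit_frac (F := F) a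
  have i1 : ∀ b, φ b⁻¹ = (φ b)⁻¹ := fun b =>
    map_inv (⟨⟨φ, by
      have := hφ 1 1
      rw [mul_one] at this
      exact left_eq_mul.1 this⟩, hφ⟩ : Kˣ →* G) b
  have i2 : ∀ b, ψ b⁻¹ = (ψ b)⁻¹ := fun b =>
    map_inv (⟨⟨ψ, by
      have := hψ 1 1
      rw [mul_one] at this
      exact left_eq_mul.1 this⟩, hψ⟩ : Kˣ →* G) b
  rw [hφ, hψ, i1, i2, h f hf, h g hg]

theorem ext_units_int {φ ψ : Kˣ → ℤ}
    (hφ : ∀ a b, φ (a * b) = φ a + φ b) (hψ : ∀ a b, ψ (a * b) = ψ a + ψ b)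
    (h : ∀ f : F[X], f ≠ 0 → φ (uP K f) = ψ (uP K f)) (a : Kˣ) : φ a = ψ a := by
  have := ext_units (G := Multiplicative ℤ) (φ := fun a => Multiplicative.ofAdd (φ a))
    (ψ := fun a => Multiplicative.ofAdd (ψ a)) (fun a b => by
      rw [hφ]
      rfl) (fun a b => by
      rw [hψ]
      rfl) (fun f hf => by
      rw [h f hf]) a
  exact Multiplicative.ofAdd.injective this

section Place

variable {κ : Type v} [Field κ] (v : HeightOneSpectrum F[X]) (ρ : F[X] →+* κ)
  (hρ : Function.Surjective ρ) (hker : RingHom.ker ρ = v.asIdeal) {P : F[X]} (hP0 : P ≠ 0)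
  (hP : v.asIdeal = Ideal.span {P})

include hP in
theorem ord_c {c : F[X]} (hc : ¬ P ∣ c) : (placeDV (K := K) v ρ hρ hker).ord (uP K c) = 0 := by
  have hc0 : c ≠ 0 := fun h => hc (h ▸ dvd_zero P)
  rw [MK.placeDV_ord, uP_val hc0, HeightOneSpectrum.valuation_of_algebraMap,
    HeightOneSpectrum.intValuation_eq_one_iff.2, WithZero.log_one, neg_zero]
  rw [hP, Ideal.mem_span_singleton]
  exact hc

include hP0 hP in
theorem ord_P : (placeDV (K := K) v ρ hρ hker).ord (uP K P) = 1 := by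
  rw [MK.placeDV_ord, uP_val hP0, HeightOneSpectrum.valuation_of_algebraMap,
    HeightOneSpectrum.intValuation_singleton v hP0 hP, WithZero.log_exp, neg_neg]

include hP in
theorem ures_c {c : F[X]} (hc : ¬ P ∣ c) :
    ((placeDV (K := K) v ρ hρ hker).ures (uP K c) : κ) = ρ c := by
  have hc0 : c ≠ 0 := fun h => hc (h ▸ dvd_zero P)
  rw [DV.ures_of_ord_eq_zero _ _ (ord_c v ρ hρ hker hP hc)]
  unfold DV.resUnit
  rw [Units.val_mk0]
  have h1 := MK.placeDV_mem (K := K) v ρ hρ hker c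
  have h2 := MK.placeDV_res (K := K) v ρ hρ hker c h1
  rw [← h2]
  congr 1
  apply Subtype.ext
  exact uP_val hc0

theorem uP_pow {f : F[X]} (hf : f ≠ 0) (n : ℕ) : uP K (f ^ n) = uP K f ^ n := by
  ext
  rw [uP_val (pow_ne_zero n hf), Units.val_pow_eq_pow_val, uP_val hf, map_pow]

/-- comparison of the two versions of a place -/
theorem compare (p : PrimeData F[X] κ) (h1 : p.P = P) (h2 : p.q = ρ) (a : Kˣ) :
    (placeDV (K := K) v ρ hρ hker).ord a = (p.pv.ts K).v a ∧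
    (placeDV (K := K) v ρ hρ hker).ures a = (p.pv.ts K).ρ a *
      (placeDV (K := K) v ρ hρ hker).ures (uP K P) ^ (p.pv.ts K).v a := by
  subst h1
  have hP0 := p.prime.ne_zero
  have hv : v.asIdeal = Ideal.span {p.P} := by
    rw [← hker, ← h2]
    ext x
    rw [RingHom.mem_ker, Ideal.mem_span_singleton]
    exact p.ker x
  obtain ⟨D, hD⟩ : ∃ D, D = placeDV (K := K) v ρ hρ hker := ⟨_, rfl⟩
  rw [← hD]
  have e1 : D.ord (uP K p.P) = 1 := by rw [hD]; exact ord_P v ρ hρ hker hP0 hv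
  have e2 : ∀ c : F[X], ¬ p.P ∣ c → D.ord (uP K c) = 0 := by
    intro c hc; rw [hD]; exact ord_c v ρ hρ hker hv hc
  have e3 : ∀ c : F[X], ¬ p.P ∣ c → (D.ures (uP K c) : κ) = ρ c := by
    intro c hc; rw [hD]; exact ures_c v ρ hρ hker hv hc
  have hpow : ∀ (n : ℕ), D.ord (uP K p.P ^ n) = n ∧
      D.ures (uP K p.P ^ n) = D.ures (uP K p.P) ^ n := by
    intro n
    induction n with
    | zero => rw [pow_zero, D.ord_one, D.ures_one, pow_zero]; exact ⟨rfl, rfl⟩
    | succ n ih =>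
      rw [pow_succ, D.ord_mul, D.ures_mul, ih.1, ih.2, e1, pow_succ]
      exact ⟨by push_cast; ring, rfl⟩
  have hv1 : ∀ a, D.ord a = (p.pv.ts K).v a := by
    refine ext_units_int (F := F) D.ord_mul (p.pv.ts K).v_mul fun f hf => ?_
    obtain ⟨h3, h4⟩ := p.n_c hf
    have hc0 : p.c f ≠ 0 := fun h => h4 (h ▸ dvd_zero _)
    rw [p.pv.ts_v' hf (uP_val hf)]
    rw [h3, p.pv_v h4, uP_mul (pow_ne_zero _ hP0) hc0, uP_pow hP0, D.ord_mul, (hpow _).1, e2 _ h4,
      add_zero]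
  refine ⟨hv1 a, ?_⟩
  refine ext_units (F := F) (φ := D.ures) (ψ := fun a => (p.pv.ts K).ρ a *
    D.ures (uP K p.P) ^ (p.pv.ts K).v a) D.ures_mul (fun a b => ?_) (fun f hf => ?_) a
  · rw [(p.pv.ts K).ρ_mul, (p.pv.ts K).v_mul, zpow_add]
    exact mul_mul_mul_comm _ _ _ _
  · obtain ⟨h3, h4⟩ := p.n_c hf
    have hc0 : p.c f ≠ 0 := fun h => h4 (h ▸ dvd_zero _)
    have e5 : (p.pv.ts K).v (uP K f) = p.n f := by
      rw [p.pv.ts_v' hf (uP_val hf)]
      nth_rewrite 1 [h3]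
      rw [p.pv_v h4]
    have e6 : ((p.pv.ts K).ρ (uP K f) : κ) = p.q (p.c f) := by
      rw [p.pv.ts_ρ' hf (uP_val hf)]
      nth_rewrite 1 [h3]
      rw [p.pv_ρ h4]
    have e7 : uP K f = uP K p.P ^ p.n f * uP K (p.c f) := by
      nth_rewrite 1 [h3]
      rw [uP_mul (pow_ne_zero _ hP0) hc0, uP_pow hP0]
    ext
    rw [Units.val_mul, e6, e5, e7, D.ures_mul, (hpow _).2, Units.val_mul, e3 _ h4, h2,
      zpow_natCast, mul_comm]

end Place

/-- the tame symbol at a finite place -/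
theorem toKM_finPlace (Q : MIP F) (n : ℕ) (x : MilnorK (RatFunc F) (n + 1)) :
    letI : Fact (Irreducible Q.Q) := ⟨Q.irr⟩
    toKM Q.k n (MK.tame (finPlace Q.Q) n x) = tQ (RatFunc F) Q (toKM (RatFunc F) (n + 1) x) := by
  let _ : Fact (Irreducible Q.Q) := ⟨Q.irr⟩
  change toKM Q.k n (MK.tame (finPlace Q.Q) n x) = _
  rw [toKM_tame]
  have h : ∀ a, (TS.ofDV (finPlace Q.Q)).v a = (Q.pd.pv.ts (RatFunc F)).v a ∧
      (TS.ofDV (finPlace Q.Q)).ρ a = (Q.pd.pv.ts (RatFunc F)).ρ a *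
      (finPlace Q.Q).ures (uP (RatFunc F) Q.Q) ^ (Q.pd.pv.ts (RatFunc F)).v a :=
    fun a => compare (K := RatFunc F) (MK.polyPrime Q.Q Q.irr) (AdjoinRoot.mk Q.Q)
      AdjoinRoot.mk_surjective _ (P := Q.Q) Q.pd rfl rfl a
  exact TS.tame_congr _ _ (fun a => (h a).1) _ (fun a => (h a).2) _

/-! ### Infinity -/

/-- the data of the place `t = 0` -/
noncomputable def pd0 (F : Type u) [Field F] : PrimeData F[X] F where
  q := Polynomial.evalRingHom 0
  P := X
  prime := prime_X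
  ker x := by
    change eval 0 x = 0 ↔ X ∣ x
    rw [X_dvd_iff, coeff_zero_eq_eval_zero]
  fin _ hx := FiniteMultiplicity.of_not_isUnit irreducible_X.not_isUnit hx

theorem invSubst_algebraMap (f : F[X]) : invSubst F (algebraMap F[X] (RatFunc F) f) *
    algebraMap F[X] (RatFunc F) X ^ f.natDegree = algebraMap F[X] (RatFunc F) f.reverse := by
  have h1 : invSubst F (algebraMap F[X] (RatFunc F) f) =
      eval₂ (algebraMap F (RatFunc F)) (RatFunc.X⁻¹) f := by
    unfold invSubst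
    rw [IsFractionRing.lift_algebraMap]
    rfl
  have hX : algebraMap F[X] (RatFunc F) X = RatFunc.X := RatFunc.algebraMap_X
  have hX0 : (RatFunc.X : RatFunc F) ≠ 0 := RatFunc.X_ne_zero
  let _ : Invertible (RatFunc.X⁻¹ : RatFunc F) := invertibleOfNonzero (inv_ne_zero hX0)
  have h2 := eval₂_reverse_mul_pow (algebraMap F (RatFunc F)) (RatFunc.X⁻¹ : RatFunc F) f
  have h3 : (⅟(RatFunc.X⁻¹ : RatFunc F)) = RatFunc.X := by
    rw [invOf_eq_inv, inv_inv]
  have h4 : eval₂ (algebraMap F (RatFunc F)) RatFunc.X f.reverse =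
      algebraMap F[X] (RatFunc F) f.reverse := by
    rw [← hX]
    have : (algebraMap F (RatFunc F)) = (algebraMap F[X] (RatFunc F)).comp C := by
      ext c
      simp
    rw [this, ← hom_eval₂, eval₂_C_X]
  rw [h1, hX, ← h2, h3, h4, mul_assoc, ← mul_pow, inv_mul_cancel₀ hX0, one_pow, mul_one]

theorem zero_compare (a : (RatFunc F)ˣ) :
    (zeroPlace F).ord a = ((pd0 F).pv.ts (RatFunc F)).v a ∧
    (zeroPlace F).ures a = ((pd0 F).pv.ts (RatFunc F)).ρ a *
      (zeroPlace F).ures (uP (RatFunc F) (X : F[X])) ^ ((pd0 F).pv.ts (RatFunc F)).v a :=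
  compare (K := RatFunc F) _ _ _ _ (P := X) (pd0 F) rfl rfl a

theorem map_invSubst {f : F[X]} (hf : f ≠ 0) :
    Units.map (invSubst F).toMonoidHom (uP (RatFunc F) f) =
      uP (RatFunc F) f.reverse * uP (RatFunc F) (X : F[X]) ^ (-(f.natDegree : ℤ)) := by
  rw [zpow_neg, zpow_natCast, eq_mul_inv_iff_mul_eq]
  have hr : f.reverse ≠ 0 := fun h => hf (reverse_eq_zero.1 h)
  ext
  rw [Units.val_mul, Units.val_pow_eq_pow_val, uP_val hr, uP_val X_ne_zero,
    ← invSubst_algebraMap]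
  change invSubst F (uP (RatFunc F) f : RatFunc F) * _ = _
  rw [uP_val hf]

theorem not_X_dvd_reverse {f : F[X]} (hf : f ≠ 0) : ¬ (X : F[X]) ∣ f.reverse := by
  rw [X_dvd_iff, coeff_zero_reverse]
  exact leadingCoeff_ne_zero.2 hf

/-- the morphism from infinity to zero -/
noncomputable def infMor (F : Type u) [Field F] :
    TS.Mor ((pvInf F).ts (RatFunc F)) (TS.ofDV (zeroPlace F)) where
  j := invSubst F
  i := RingHom.id F
  e := 1
  c := (zeroPlace F).ures (uP (RatFunc F) (X : F[X]))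
  hv a := by
    rw [one_mul]
    change (zeroPlace F).ord _ = _
    rw [(zero_compare _).1]
    refine ext_units_int (F := F)
      (φ := fun a => ((pd0 F).pv.ts (RatFunc F)).v (Units.map (invSubst F).toMonoidHom a))
      (ψ := ((pvInf F).ts (RatFunc F)).v) (fun a b => ?_) ((pvInf F).ts (RatFunc F)).v_mul
      (fun f hf => ?_) a
    · rw [map_mul, ((pd0 F).pv.ts (RatFunc F)).v_mul]
    · have hr : f.reverse ≠ 0 := fun h => hf (reverse_eq_zero.1 h)
      rw [map_invSubst hf, ← (zero_compare _).1, DV.ord_mul, DV.ord_zpow, (zero_compare _).1,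
        (zero_compare _).1, (pvInf F).ts_v' hf (uP_val hf), (pd0 F).pv.ts_v' hr (uP_val hr),
        (pd0 F).pv_v_unit (not_X_dvd_reverse hf), (pd0 F).pv.ts_v' X_ne_zero (uP_val X_ne_zero)]
      have : (pd0 F).pv.v X = 1 := (pd0 F).pv_v_P
      rw [this]
      change (0 : ℤ) + -(f.natDegree : ℤ) * 1 = -(f.natDegree : ℤ)
      ring
  hρ a := by
    change (zeroPlace F).ures _ = _
    refine ext_units (F := F)
      (φ := fun a => (zeroPlace F).ures (Units.map (invSubst F).toMonoidHom a))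
      (ψ := fun a => Units.map (RingHom.id F).toMonoidHom (((pvInf F).ts (RatFunc F)).ρ a) *
        (zeroPlace F).ures (uP (RatFunc F) (X : F[X])) ^ ((pvInf F).ts (RatFunc F)).v a)
      (fun a b => ?_) (fun a b => ?_) (fun f hf => ?_) a
    · rw [map_mul, DV.ures_mul]
    · rw [((pvInf F).ts (RatFunc F)).ρ_mul, ((pvInf F).ts (RatFunc F)).v_mul, zpow_add, map_mul]
      exact mul_mul_mul_comm _ _ _ _
    · have hr : f.reverse ≠ 0 := fun h => hf (reverse_eq_zero.1 h)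
      have hz : ∀ (b : (RatFunc F)ˣ) (m : ℤ), (zeroPlace F).ures (b ^ m) =
          (zeroPlace F).ures b ^ m := fun b m =>
        map_zpow (⟨⟨(zeroPlace F).ures, DV.ures_one _⟩, DV.ures_mul _⟩ : (RatFunc F)ˣ →* Fˣ) b m
      rw [map_invSubst hf, DV.ures_mul, hz, (pvInf F).ts_v' hf (uP_val hf)]
      congr 1
      ext
      change ((zeroPlace F).ures (uP (RatFunc F) f.reverse) : F) =
        (((pvInf F).ts (RatFunc F)).ρ (uP (RatFunc F) f) : F)
      rw [(pvInf F).ts_ρ' hf (uP_val hf)]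
      have h1 := (zero_compare (uP (RatFunc F) f.reverse)).2
      have h2 : ((pd0 F).pv.ts (RatFunc F)).v (uP (RatFunc F) f.reverse) = 0 := by
        rw [(pd0 F).pv.ts_v' hr (uP_val hr), (pd0 F).pv_v_unit (not_X_dvd_reverse hf)]
      rw [h2, zpow_zero, mul_one] at h1
      rw [h1, (pd0 F).pv.ts_ρ' hr (uP_val hr), (pd0 F).pv_ρ_unit (not_X_dvd_reverse hf)]
      change eval 0 f.reverse = f.leadingCoeff
      rw [← coeff_zero_eq_eval_zero, coeff_zero_reverse]

/-- the tame symbol at infinity -/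
theorem toKM_tameInf (n : ℕ) (x : MilnorK (RatFunc F) (n + 1)) :
    toKM F n (tameInf F n x) = ((pvInf F).ts (RatFunc F)).tame (toKM (RatFunc F) (n + 1) x) := by
  unfold tameInf
  rw [AddMonoidHom.comp_apply, toKM_tame, toKM_map]
  have := (infMor F).tame_map (toKM (RatFunc F) (n + 1) x)
  change (TS.ofDV (zeroPlace F)).tame (map (invSubst F) _) = (1 : ℤ) • map (RingHom.id F) _ at this
  rw [this, one_smul, map_id]

end Pool.Agent.H14.KM
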