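import Pool.Agent.H14.KM.Seq2
import Pool.Agent.H62.MK.TargetsA

/-!
# Milnor K-theory: the graded pieces of the Milnor ring by generators and relations
-/

set_option autoImplicit false

namespace Pool.Agent.H14.KM

open Pool.Agent.H62
open Pool.Agent.H62.MK (MilnorK cup one0 DV KS)

universe u v w

section Ring

variable {R : Type u} [CommRing R]

/-- induction for the Milnor groups -/
theorem mk_induction {P : ∀ n, MilnorK R n → Prop} (h1 : P 0 one0) (h0 : ∀ n, P n 0)
    (hadd : ∀ n x y, P n x → P n y → P n (x + y)) (hneg : ∀ n x, P n x → P n (-x))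
    (hcup : ∀ n a y, P n y → P (n + 1) (cup a y)) : ∀ n x, P n x := by
  intro n
  have key : ∀ (n : ℕ) (a : Fin n → Rˣ), P n (MK.sym a) := by
    intro n
    induction n with
    | zero =>
      intro a
      have : a = Fin.elim0 := funext fun i => i.elim0
      rw [this]
      exact h1
    | succ n ih =>
      intro a
      have : MK.sym a = cup (a 0) (MK.sym (Fin.tail a)) := by
        rw [MK.cup_sym, Fin.cons_self_tail]
      rw [this]
      exact hcup n _ _ (ih _)
  intro x
  exact MilnorK.induction x (h0 n) (key n) (hneg n) (hadd n)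

variable (R) in
/-- the homomorphism to the Milnor ring -/
noncomputable def toKM (n : ℕ) : MilnorK R n →+ KM R :=
  MK.liftOp (A := fun _ => KM R) 1 (fun _ a => AddMonoidHom.mulLeft (sym a))
    (fun _ a b x => by
      change sym (a * b) * x = sym a * x + sym b * x
      rw [sym_mul, add_mul])
    (fun _ a b h x => by
      change sym a * (sym b * x) = 0
      rw [← mul_assoc, sym_st a b h, zero_mul]) n

theorem toKM_one0 : toKM R 0 one0 = 1 := MK.liftOp_zero _ _ _ _ _

theorem toKM_cup (n : ℕ) (a : Rˣ) (x : MilnorK R n) :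
    toKM R (n + 1) (cup a x) = sym a * toKM R n x := MK.liftOp_cup _ _ _ _ _ _ _

/-- the shift operator -/
noncomputable def sh (a : Rˣ) : AddMonoid.End (∀ n, MilnorK R n) where
  toFun x n := match n with
    | 0 => 0
    | n + 1 => cup a (x n)
  map_zero' := by
    funext n
    cases n with
    | zero => rfl
    | succ n => exact map_zero _
  map_add' x y := by
    funext n
    cases n with
    | zero => exact (add_zero _).symm
    | succ n => exact map_add _ _ _

theorem sh_zero (a : Rˣ) (x : ∀ n, MilnorK R n) : sh a x 0 = 0 := rfl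

theorem sh_succ (a : Rˣ) (x : ∀ n, MilnorK R n) (n : ℕ) : sh a x (n + 1) = cup a (x n) := rfl

/-- the action of the Milnor ring on the product of the Milnor groups -/
noncomputable def act : KM R →+* AddMonoid.End (∀ n, MilnorK R n) :=
  lift sh
    (fun a b => by
      refine DFunLike.ext _ _ fun x => ?_
      funext n
      change sh (a * b) x n = sh a x n + sh b x n
      cases n with
      | zero => rw [sh_zero, sh_zero, sh_zero, add_zero]
      | succ n => rw [sh_succ, sh_succ, sh_succ, MK.cup_mul])
    (fun a b h => by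
      refine DFunLike.ext _ _ fun x => ?_
      funext n
      change sh a (sh b x) n = 0
      cases n with
      | zero => rw [sh_zero]
      | succ n =>
        rw [sh_succ]
        cases n with
        | zero => rw [sh_zero, map_zero]
        | succ n => rw [sh_succ, MK.cup_cup_eq_zero a b h])

/-- the base vector -/
noncomputable def base : ∀ n, MilnorK R n
  | 0 => one0
  | _ + 1 => 0

/-- the components -/
noncomputable def comps : KM R →+ ∀ n, MilnorK R n where
  toFun x := act x base
  map_zero' := by rw [map_zero]; rfl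
  map_add' x y := by rw [map_add]; rfl

theorem comps_sym_mul (a : Rˣ) (x : KM R) : comps (sym a * x) = sh a (comps x) := by
  change act (sym a * x) base = sh a (act x base)
  rw [map_mul]
  change act (sym a) (act x base) = _
  unfold act
  rw [lift_sym]

theorem comps_one : comps (1 : KM R) = base := by
  change act 1 base = base
  rw [map_one]
  rfl

theorem comps_toKM : ∀ (n : ℕ) (x : MilnorK R n), comps (toKM R n x) n = x := by
  refine mk_induction ?_ ?_ ?_ ?_ ?_
  · rw [toKM_one0, comps_one]
    rfl
  · intro n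
    rw [map_zero, map_zero]
    rfl
  · intro n x y hx hy
    rw [map_add, map_add, Pi.add_apply, hx, hy]
  · intro n x hx
    rw [map_neg, map_neg, Pi.neg_apply, hx]
  · intro n a y hy
    rw [toKM_cup, comps_sym_mul, sh_succ, hy]

theorem toKM_injective (n : ℕ) : Function.Injective (toKM R n) := fun x y h => by
  rw [← comps_toKM n x, h, comps_toKM]

theorem toKM_mem (n : ℕ) (x : MilnorK R n) : toKM R n x ∈ gr R n := by
  revert n x
  refine mk_induction ?_ ?_ ?_ ?_ ?_
  · rw [toKM_one0]
    exact one_mem_gr
  · intro n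
    rw [map_zero]
    exact zero_mem _
  · intro n x y hx hy
    rw [map_add]
    exact add_mem hx hy
  · intro n x hx
    rw [map_neg]
    exact neg_mem hx
  · intro n a y hy
    rw [toKM_cup]
    exact sym_mul_mem_gr a hy

theorem exists_toKM {n : ℕ} {y : KM R} (hy : y ∈ gr R n) : ∃ x, toKM R n x = y := by
  refine gr_induction (p := fun y => ∃ x, toKM R n x = y) hy ⟨0, map_zero _⟩ ?_ ?_ ?_
  · rintro _ _ ⟨x, rfl⟩ ⟨y, rfl⟩
    exact ⟨x + y, map_add _ _ _⟩
  · rintro _ ⟨x, rfl⟩
    exact ⟨-x, map_neg _ _⟩
  · intro l
    clear hy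
    induction l generalizing n with
    | nil =>
      rintro rfl
      exact ⟨one0, toKM_one0⟩
    | cons a l ih =>
      rintro rfl
      obtain ⟨x, hx⟩ := ih rfl
      exact ⟨cup a x, (toKM_cup _ a x).trans (by rw [hx]; rfl)⟩

theorem toKM_map {S : Type v} [CommRing S] (f : R →+* S) : ∀ (n : ℕ) (x : MilnorK R n),
    toKM S n (MK.map f n x) = map f (toKM R n x) := by
  refine mk_induction ?_ ?_ ?_ ?_ ?_
  · rw [toKM_one0, map_one]
    have : MK.map f 0 one0 = one0 := by
      unfold one0
      rw [MK.map_sym]
      congr 1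
      funext i
      exact i.elim0
    rw [this, toKM_one0]
  · intro n
    rw [map_zero, map_zero, map_zero, map_zero]
  · intro n x y hx hy
    rw [map_add, map_add, map_add, map_add, hx, hy]
  · intro n x hx
    rw [map_neg, map_neg, map_neg, map_neg, hx]
  · intro n a y hy
    rw [MK.map_cup, toKM_cup, toKM_cup, hy, map_mul, map_sym]

end Ring

/-! ### Tame symbols -/

section Tame

variable {F : Type u} {κ : Type v} [Field F] [Field κ]

/-- the data of a discrete valuation -/
noncomputable def TS.ofDV (D : DV F κ) : TS F κ where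
  v := D.ord
  ρ := D.ures
  v_mul := D.ord_mul
  ρ_mul := D.ures_mul
  pos := D.ures_of_pos
  zero := D.ures_add
  neg := D.ures_of_neg

/-- the shifted groups -/
noncomputable def kS : ∀ n, KS κ n →+ KM κ
  | 0 => 0
  | n + 1 => toKM κ n

theorem kS_cupS (a : κˣ) (n : ℕ) (x : KS κ n) : kS (n + 1) (MK.cupS a n x) = sym a * kS n x := by
  cases n with
  | zero =>
    change toKM κ 0 0 = sym a * 0
    rw [map_zero, mul_zero]
  | succ n => exact toKM_cup n a x

theorem kS_toKS (n : ℕ) (x : MilnorK κ n) : kS (n + 1) (MK.toKS n x) = toKM κ n x := rfl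

theorem both_toKM (D : DV F κ) : ∀ (n : ℕ) (x : MilnorK F n),
    (TS.ofDV D).both (toKM F n x) =
      (toKM κ n (MK.tamePair D n x).1, kS n (MK.tamePair D n x).2) := by
  refine mk_induction ?_ ?_ ?_ ?_ ?_
  · rw [toKM_one0, TS.both_one]
    have : MK.tamePair D 0 one0 = (one0, 0) := MK.liftOp_zero _ _ _ _ _
    rw [this]
    refine Prod.ext ?_ ?_
    · exact toKM_one0.symm
    · exact (map_zero (kS (κ := κ) 0)).symm
  · intro n
    simp only [map_zero, Prod.fst_zero, Prod.snd_zero]
    rfl
  · intro n x y hx hy
    simp only [map_add, Prod.fst_add, Prod.snd_add, hx, hy, Prod.mk_add_mk]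
  · intro n x hx
    simp only [map_neg, Prod.fst_neg, Prod.snd_neg, hx, Prod.neg_mk]
  · intro n a y hy
    have : MK.tamePair D (n + 1) (cup a y) = MK.theta D n a (MK.tamePair D n y) :=
      MK.liftOp_cup _ _ _ _ _ _ _
    rw [toKM_cup, TS.both_sym_mul, hy, this, TS.opF_apply]
    generalize MK.tamePair D n y = z
    obtain ⟨s, d⟩ := z
    change _ = (toKM κ (n + 1) (cup (D.ures a) s), kS (n + 1)
      (D.ord a • MK.toKS n s - MK.cupS (D.ures a) n d + D.ord a • MK.cupS (-1) n d))
    rw [toKM_cup, map_add, map_sub, map_zsmul, map_zsmul, kS_cupS, kS_cupS, kS_toKS]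
    refine Prod.ext rfl ?_
    change D.ord a • (toKM κ n s + sym (-1) * kS n d) - sym (D.ures a) * kS n d =
      D.ord a • (toKM κ n) s - sym (D.ures a) * (kS n) d + D.ord a • (sym (-1) * (kS n) d)
    rw [smul_add]
    abel

theorem toKM_tame (D : DV F κ) (n : ℕ) (x : MilnorK F (n + 1)) :
    toKM κ n (MK.tame D n x) = (TS.ofDV D).tame (toKM F (n + 1) x) := by
  have h := congrArg Prod.snd (both_toKM D (n + 1) x)
  exact h.symm

end Tame

end Pool.Agent.H14.KM
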