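import Mathlib

/-!
# Milnor K-theory: the Milnor ring, tame symbols and specialization

`KM R` is the Milnor ring of a commutative ring `R`: the tensor algebra of the abelian group `Rˣ`
modulo the two-sided ideal generated by `a ⊗ b` with `a + b = 1`.
-/

set_option autoImplicit false
set_option linter.dupNamespace false

namespace Pool.Agent.H14.KM

universe u v w

section Ring

variable (R : Type u) [CommRing R]

/-- the Steinberg relations -/
inductive StRel : TensorAlgebra ℤ (Additive Rˣ) → TensorAlgebra ℤ (Additive Rˣ) → Prop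
  | st (a b : Rˣ) (h : (a : R) + b = 1) :
      StRel (TensorAlgebra.ι ℤ (Additive.ofMul a) * TensorAlgebra.ι ℤ (Additive.ofMul b)) 0

/-- the Milnor ring -/
def KM : Type u := RingQuot (StRel R)

noncomputable instance : Ring (KM R) := inferInstanceAs (Ring (RingQuot (StRel R)))

variable {R}

/-- the projection from the tensor algebra -/
noncomputable def mk : TensorAlgebra ℤ (Additive Rˣ) →+* KM R := RingQuot.mkRingHom (StRel R)

theorem mk_surjective : Function.Surjective (mk (R := R)) :=
  RingQuot.mkRingHom_surjective (StRel R)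

/-- the symbol of a unit -/
noncomputable def sym (a : Rˣ) : KM R := mk (TensorAlgebra.ι ℤ (Additive.ofMul a))

theorem sym_mul (a b : Rˣ) : sym (a * b) = sym a + sym b := by
  unfold sym
  rw [ofMul_mul, map_add, map_add]

theorem sym_one : sym (1 : Rˣ) = 0 := by
  have h := sym_mul (1 : Rˣ) 1
  rw [mul_one] at h
  simpa using h

theorem sym_inv (a : Rˣ) : sym a⁻¹ = -sym a := by
  have h := sym_mul a a⁻¹
  rw [mul_inv_cancel, sym_one] at h
  exact (neg_eq_of_add_eq_zero_right h.symm).symm

theorem sym_div (a b : Rˣ) : sym (a / b) = sym a - sym b := by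
  rw [div_eq_mul_inv, sym_mul, sym_inv, sub_eq_add_neg]

theorem sym_pow (a : Rˣ) (n : ℕ) : sym (a ^ n) = n • sym a := by
  induction n with
  | zero => simp [sym_one]
  | succ n ih => rw [pow_succ, sym_mul, ih, succ_nsmul]

theorem sym_zpow (a : Rˣ) (n : ℤ) : sym (a ^ n) = n • sym a := by
  cases n with
  | ofNat n => simpa using sym_pow a n
  | negSucc n => rw [zpow_negSucc, sym_inv, sym_pow, negSucc_zsmul]

theorem mk_rel {x y : TensorAlgebra ℤ (Additive Rˣ)} (h : StRel R x y) : mk x = mk y :=
  RingQuot.mkRingHom_rel h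

theorem sym_st (a b : Rˣ) (h : (a : R) + b = 1) : sym a * sym b = 0 := by
  unfold sym
  rw [← map_mul, mk_rel (StRel.st a b h), map_zero]

/-- ring homomorphisms from the Milnor ring -/
noncomputable def mkLift {A : Type v} [Ring A] (g : TensorAlgebra ℤ (Additive Rˣ) →+* A)
    (hg : ∀ ⦃x y⦄, StRel R x y → g x = g y) : KM R →+* A := RingQuot.lift ⟨g, hg⟩

theorem mkLift_mk {A : Type v} [Ring A] (g : TensorAlgebra ℤ (Additive Rˣ) →+* A)
    (hg : ∀ ⦃x y⦄, StRel R x y → g x = g y) (x) : mkLift g hg (mk x) = g x :=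
  RingQuot.lift_mkRingHom_apply g hg x

/-- the ring homomorphism from the tensor algebra -/
noncomputable def taLift {A : Type v} [Ring A] (f : Rˣ → A) (hm : ∀ a b, f (a * b) = f a + f b) :
    TensorAlgebra ℤ (Additive Rˣ) →+* A :=
  (TensorAlgebra.lift ℤ (AddMonoidHom.toIntLinearMap
    (AddMonoidHom.mk' (fun a : Additive Rˣ => f a.toMul) fun _ _ => hm _ _))).toRingHom

theorem taLift_ι {A : Type v} [Ring A] (f : Rˣ → A) (hm : ∀ a b, f (a * b) = f a + f b)
    (a : Rˣ) : taLift f hm (TensorAlgebra.ι ℤ (Additive.ofMul a)) = f a := by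
  change TensorAlgebra.lift ℤ _ _ = _
  rw [TensorAlgebra.lift_ι_apply]
  rfl

/-- universal property -/
noncomputable def lift {A : Type v} [Ring A] (f : Rˣ → A) (hm : ∀ a b, f (a * b) = f a + f b)
    (hs : ∀ a b : Rˣ, (a : R) + b = 1 → f a * f b = 0) : KM R →+* A :=
  mkLift (taLift f hm) (by
    rintro _ _ ⟨a, b, h⟩
    rw [map_mul, taLift_ι, taLift_ι, map_zero]
    exact hs a b h)

theorem lift_sym {A : Type v} [Ring A] (f : Rˣ → A) (hm : ∀ a b, f (a * b) = f a + f b)
    (hs : ∀ a b : Rˣ, (a : R) + b = 1 → f a * f b = 0) (a : Rˣ) : lift f hm hs (sym a) = f a := by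
  unfold lift sym
  rw [mkLift_mk, taLift_ι]

/-- products of symbols generate -/
theorem closure_prod :
    AddSubgroup.closure (Set.range fun l : List Rˣ => (l.map sym).prod) = ⊤ := by
  rw [eq_top_iff]
  intro x _
  obtain ⟨y, rfl⟩ := mk_surjective x
  induction y using TensorAlgebra.induction with
  | algebraMap r =>
    have h1 : mk (R := R) (algebraMap ℤ _ r) = r • (1 : KM R) := by
      have : algebraMap ℤ (TensorAlgebra ℤ (Additive Rˣ)) r = r • 1 :=
        Algebra.algebraMap_eq_smul_one r
      rw [this, map_zsmul, map_one]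
    have h2 : (1 : KM R) ∈ AddSubgroup.closure
        (Set.range fun l : List Rˣ => (l.map sym).prod) :=
      AddSubgroup.subset_closure ⟨[], by simp⟩
    rw [h1]
    exact AddSubgroup.zsmul_mem _ h2 r
  | ι a => exact AddSubgroup.subset_closure ⟨[a.toMul], by simp [sym]⟩
  | mul a b ha hb =>
    rw [map_mul]
    have ha' := ha trivial
    have hb' := hb trivial
    generalize mk (R := R) a = x at ha'
    generalize mk (R := R) b = z at hb'
    induction ha' using AddSubgroup.closure_induction with
    | mem x hx =>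
      induction hb' using AddSubgroup.closure_induction with
      | mem y hy =>
        obtain ⟨l, rfl⟩ := hx
        obtain ⟨m, rfl⟩ := hy
        refine AddSubgroup.subset_closure ⟨l ++ m, ?_⟩
        simp
      | zero => rw [mul_zero]; exact AddSubgroup.zero_mem _
      | add y z _ _ h1 h2 => rw [mul_add]; exact AddSubgroup.add_mem _ h1 h2
      | neg y _ h1 => rw [mul_neg]; exact AddSubgroup.neg_mem _ h1
    | zero => rw [zero_mul]; exact AddSubgroup.zero_mem _
    | add y z _ _ h1 h2 => rw [add_mul]; exact AddSubgroup.add_mem _ h1 h2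
    | neg y _ h1 => rw [neg_mul]; exact AddSubgroup.neg_mem _ h1
  | add a b ha hb =>
    rw [map_add]
    exact AddSubgroup.add_mem _ (ha trivial) (hb trivial)

/-- induction from the left -/
theorem induction_on {p : KM R → Prop} (x : KM R) (h1 : p 1) (h0 : p 0)
    (hadd : ∀ x y, p x → p y → p (x + y)) (hneg : ∀ x, p x → p (-x))
    (hmul : ∀ a y, p y → p (sym a * y)) : p x := by
  have hx : x ∈ AddSubgroup.closure (Set.range fun l : List Rˣ => (l.map sym).prod) := by
    rw [closure_prod]; trivial
  induction hx using AddSubgroup.closure_induction with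
  | mem x hx =>
    obtain ⟨l, rfl⟩ := hx
    induction l with
    | nil => simpa using h1
    | cons a l ih => simpa using hmul a _ ih
  | zero => exact h0
  | add x y _ _ h2 h3 => exact hadd _ _ h2 h3
  | neg x _ h2 => exact hneg _ h2

theorem hom_ext {A : Type v} [Ring A] {f g : KM R →+* A} (h : ∀ a, f (sym a) = g (sym a)) :
    f = g := by
  ext x
  induction x using induction_on with
  | h1 => simp
  | h0 => simp
  | hadd x y hx hy => rw [map_add, map_add, hx, hy]
  | hneg x hx => rw [map_neg, map_neg, hx]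
  | hmul a y hy => rw [map_mul, map_mul, hy, h]

/-- functoriality -/
noncomputable def map {S : Type v} [CommRing S] (φ : R →+* S) : KM R →+* KM S :=
  lift (fun a => sym (Units.map φ.toMonoidHom a))
    (fun a b => by rw [map_mul, sym_mul])
    (fun a b h => sym_st _ _ (by
      change φ a + φ b = 1
      rw [← map_add, h, map_one]))

theorem map_sym {S : Type v} [CommRing S] (φ : R →+* S) (a : Rˣ) :
    map φ (sym a) = sym (Units.map φ.toMonoidHom a) := lift_sym _ _ _ _

theorem map_comp {S : Type v} {T : Type w} [CommRing S] [CommRing T] (φ : R →+* S) (ψ : S →+* T)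
    (x : KM R) : map ψ (map φ x) = map (ψ.comp φ) x := by
  have : (map ψ).comp (map φ) = map (ψ.comp φ) := hom_ext fun a => by
    rw [RingHom.comp_apply, map_sym, map_sym, map_sym]
    rfl
  exact congrArg (fun f => f x) this

theorem map_id (x : KM R) : map (RingHom.id R) x = x := by
  have : map (RingHom.id R) = RingHom.id (KM R) := hom_ext fun a => by
    rw [map_sym]
    rfl
  exact congrArg (fun f => f x) this

variable (R) in
/-- the Milnor group `K_n` as the graded piece of degree `n` -/
noncomputable def gr (n : ℕ) : AddSubgroup (KM R) :=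
  AddSubgroup.closure {x | ∃ l : List Rˣ, l.length = n ∧ x = (l.map sym).prod}

theorem gr_induction {n : ℕ} {p : KM R → Prop} {x : KM R} (hx : x ∈ gr R n)
    (h0 : p 0) (hadd : ∀ x y, p x → p y → p (x + y)) (hneg : ∀ x, p x → p (-x))
    (hl : ∀ l : List Rˣ, l.length = n → p (l.map sym).prod) : p x := by
  unfold gr at hx
  induction hx using AddSubgroup.closure_induction with
  | mem x hx =>
    obtain ⟨l, h, rfl⟩ := hx
    exact hl l h
  | zero => exact h0
  | add x y _ _ h2 h3 => exact hadd _ _ h2 h3
  | neg x _ h2 => exact hneg _ h2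

theorem prod_mem_gr {n : ℕ} {l : List Rˣ} (h : l.length = n) : (l.map sym).prod ∈ gr R n :=
  AddSubgroup.subset_closure ⟨l, h, rfl⟩

theorem one_mem_gr : (1 : KM R) ∈ gr R 0 := by
  simpa using prod_mem_gr (R := R) (n := 0) (l := []) rfl

theorem sym_mul_mem_gr {n : ℕ} (a : Rˣ) {x : KM R} (hx : x ∈ gr R n) :
    sym a * x ∈ gr R (n + 1) := by
  refine gr_induction (p := fun x => sym a * x ∈ gr R (n + 1)) hx ?_ ?_ ?_ ?_
  · rw [mul_zero]; exact zero_mem _
  · intro x y h1 h2; rw [mul_add]; exact add_mem h1 h2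
  · intro x h1; rw [mul_neg]; exact neg_mem h1
  · intro l hl
    have := prod_mem_gr (l := a :: l) (n := n + 1) (by simp [hl])
    simpa using this

theorem sym_mem_gr (a : Rˣ) : sym a ∈ gr R 1 := by
  simpa using sym_mul_mem_gr a (one_mem_gr (R := R))

theorem map_mem_gr {S : Type v} [CommRing S] (φ : R →+* S) {n : ℕ} {x : KM R}
    (hx : x ∈ gr R n) : map φ x ∈ gr S n := by
  refine gr_induction (p := fun x => map φ x ∈ gr S n) hx ?_ ?_ ?_ ?_
  · rw [map_zero]; exact zero_mem _
  · intro x y h1 h2; rw [map_add]; exact add_mem h1 h2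
  · intro x h1; rw [map_neg]; exact neg_mem h1
  · intro l hl
    rw [map_list_prod, List.map_map]
    have := prod_mem_gr (l := l.map (Units.map φ.toMonoidHom)) (n := n) (by simp [hl])
    rw [List.map_map] at this
    have e : ⇑(map φ) ∘ sym = sym ∘ ⇑(Units.map φ.toMonoidHom) := by
      funext a
      exact map_sym φ a
    rw [e]
    exact this

end Ring

/-! ### Fields -/

section Field

variable {F : Type u} [Field F]

theorem sym_neg_self (a : Fˣ) : sym a * sym (-a) = 0 := by
  by_cases h1 : a = 1
  · rw [h1, sym_one, zero_mul]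
  have h2 : (1 : F) - a ≠ 0 := fun h => h1 (Units.ext (by simpa using (sub_eq_zero.1 h).symm))
  have h3 : (1 : F) - (a : F)⁻¹ ≠ 0 := fun h => h1 (Units.ext (by
    have := (sub_eq_zero.1 h).symm
    rw [inv_eq_one] at this
    simpa using this))
  have e1 : -a = Units.mk0 _ h2 / Units.mk0 _ h3 := by
    ext
    rw [Units.val_neg, Units.val_div_eq_div_val, Units.val_mk0, Units.val_mk0]
    have ha : (a : F) ≠ 0 := a.ne_zero
    rw [eq_div_iff h3]
    field_simp
    ring
  rw [e1, sym_div, mul_sub, sym_st _ _ (by simp)]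
  have e2 : sym a = -sym a⁻¹ := by rw [sym_inv, neg_neg]
  rw [e2, neg_mul, sym_st _ _ (by simp)]
  simp

theorem sym_neg_one_two : sym (-1 : Fˣ) + sym (-1) = 0 := by
  rw [← sym_mul]
  simp [sym_one]

theorem two_sym_neg_one : (2 : ℤ) • sym (-1 : Fˣ) = 0 := by
  rw [two_zsmul, sym_neg_one_two]

theorem sym_neg (a : Fˣ) : sym (-a) = sym (-1) + sym a := by
  rw [← sym_mul]
  simp

theorem sym_anticomm (a b : Fˣ) : sym a * sym b = -(sym b * sym a) := by
  have h := sym_neg_self (a * b)
  rw [sym_neg, sym_mul, add_mul, mul_add, mul_add] at h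
  have ha := sym_neg_self a
  have hb := sym_neg_self b
  rw [sym_neg, mul_add] at ha hb
  simp only [mul_add] at h
  have e : sym a * sym b + sym b * sym a = (sym a * sym (-1) + (sym a * sym a + sym a * sym b) +
      (sym b * sym (-1) + (sym b * sym a + sym b * sym b))) -
      (sym a * sym (-1) + sym a * sym a) - (sym b * sym (-1) + sym b * sym b) := by abel
  rw [h, ha, hb] at e
  simp only [sub_zero] at e
  exact eq_neg_of_add_eq_zero_left e

theorem sym_self (a : Fˣ) : sym a * sym a = sym a * sym (-1) := by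
  have ha := sym_neg_self a
  rw [sym_neg, mul_add] at ha
  have h2 : sym a * sym (-1) + sym a * sym (-1) = 0 := by
    rw [← mul_add, sym_neg_one_two, mul_zero]
  have : sym a * sym a = -(sym a * sym (-1)) := eq_neg_of_add_eq_zero_right ha
  rw [this]
  exact (eq_neg_of_add_eq_zero_left h2).symm

end Field

/-! ### Tame symbols -/

/-- A discrete valuation `v` of the field `K` with residue field `k` and a chosen uniformizer `π`,
given by `v` and the residue `ρ a` of `a / π ^ v a`. -/
structure TS (K : Type u) (k : Type v) [Field K] [Field k] where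
  v : Kˣ → ℤ
  ρ : Kˣ → kˣ
  v_mul : ∀ a b, v (a * b) = v a + v b
  ρ_mul : ∀ a b, ρ (a * b) = ρ a * ρ b
  pos : ∀ a b : Kˣ, (a : K) + b = 1 → 0 < v a → v b = 0 ∧ ρ b = 1
  zero : ∀ a b : Kˣ, (a : K) + b = 1 → v a = 0 → v b = 0 → (ρ a : k) + ρ b = 1
  neg : ∀ a b : Kˣ, (a : K) + b = 1 → v a < 0 → v b = v a ∧ ρ b = -ρ a

namespace TS

variable {K : Type u} {k : Type v} [Field K] [Field k] (t : TS K k)

/-- the specialization -/
noncomputable def spec : KM K →+* KM k :=
  lift (fun a => sym (t.ρ a)) (fun a b => by rw [t.ρ_mul, sym_mul]) (fun a b h => by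
    rcases lt_trichotomy (t.v a) 0 with h1 | h1 | h1
    · rw [(t.neg a b h h1).2, sym_neg_self]
    · rcases lt_trichotomy (t.v b) 0 with h2 | h2 | h2
      · have := (t.neg b a (by rw [add_comm, h]) h2).1
        omega
      · exact sym_st _ _ (t.zero a b h h1 h2)
      · rw [(t.pos b a (by rw [add_comm, h]) h2).2, sym_one, zero_mul]
    · rw [(t.pos a b h h1).2, sym_one, mul_zero])

theorem spec_sym (a : Kˣ) : t.spec (sym a) = sym (t.ρ a) := lift_sym _ _ _ _

/-- the endomorphism attached to a unit -/
noncomputable def opF (a : Kˣ) : AddMonoid.End (KM k × KM k) where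
  toFun x := (sym (t.ρ a) * x.1, t.v a • (x.1 + sym (-1) * x.2) - sym (t.ρ a) * x.2)
  map_zero' := by simp
  map_add' x y := by
    ext
    · simp [mul_add]
    · simp only [Prod.fst_add, Prod.snd_add, mul_add, smul_add]
      abel

theorem opF_apply (a : Kˣ) (x : KM k × KM k) : t.opF a x =
    (sym (t.ρ a) * x.1, t.v a • (x.1 + sym (-1) * x.2) - sym (t.ρ a) * x.2) := rfl

theorem opF_mul (a b : Kˣ) : t.opF (a * b) = t.opF a + t.opF b := by
  apply AddMonoidHom.ext
  intro x
  change t.opF (a * b) x = t.opF a x + t.opF b x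
  rw [opF_apply, opF_apply, opF_apply, t.ρ_mul, t.v_mul, sym_mul]
  ext
  · simp [add_mul]
  · simp only [Prod.snd_add, add_mul, add_smul]
    abel

theorem even_smul {x : KM k} (n : ℤ) (hn : Even n) : n • (sym (-1 : kˣ) * x) = 0 := by
  obtain ⟨m, rfl⟩ := hn
  have : (m + m) • (sym (-1 : kˣ) * x) = m • (((2 : ℤ) • sym (-1 : kˣ)) * x) := by
    rw [two_zsmul, add_mul, smul_add, add_smul]
  rw [this, two_sym_neg_one, zero_mul, smul_zero]

theorem opF_st (a b : Kˣ) (h : (a : K) + b = 1) : t.opF a * t.opF b = 0 := by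
  apply AddMonoidHom.ext
  intro x
  change t.opF a (t.opF b x) = 0
  rcases lt_trichotomy (t.v a) 0 with h1 | h1 | h1
  · obtain ⟨h2, h3⟩ := t.neg a b h h1
    rw [opF_apply, opF_apply, h2, h3]
    obtain ⟨s, d⟩ := x
    have e1 : sym (t.ρ a) * sym (-t.ρ a) = 0 := sym_neg_self _
    have e2 : sym (-t.ρ a) = sym (-1) + sym (t.ρ a) := sym_neg _
    have e3 : sym (-1 : kˣ) * sym (t.ρ a) = -(sym (t.ρ a) * sym (-1)) := sym_anticomm _ _
    refine Prod.ext ?_ ?_
    · simp only [Prod.fst_zero]
      rw [← mul_assoc, e1, zero_mul]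
    · simp only [Prod.snd_zero]
      generalize t.v a = n
      have q1 : (n + n ^ 2) • (sym (-1 : kˣ) * s) = 0 := even_smul _ (by
        have := Int.even_mul_succ_self n
        rwa [mul_add, mul_one, ← sq, add_comm] at this)
      have q2 : (n ^ 2 - n) • (sym (-1 : kˣ) * (sym (-1) * d)) = 0 := even_smul _ (by
        have := Int.even_mul_pred_self n
        rwa [mul_sub, mul_one, ← sq] at this)
      have q3 : sym (t.ρ a) * (sym (-t.ρ a) * d) = 0 := by rw [← mul_assoc, e1, zero_mul]
      rw [e2] at q3 ⊢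
      generalize sym (t.ρ a) = A at e3 q3 ⊢
      generalize sym (-1 : kˣ) = E at e3 q1 q2 q3 ⊢
      have q4 : E * (A * d) = -(A * (E * d)) := by
        rw [← mul_assoc, e3, neg_mul, mul_assoc]
      rw [add_smul, ← sub_eq_zero] at q1
      rw [sub_smul] at q2
      rw [add_mul, mul_add] at q3
      have q5 : n ^ 2 • (E * s) = -(n • (E * s)) := by
        rw [sub_zero] at q1
        exact eq_neg_of_add_eq_zero_right q1
      have q6 : n ^ 2 • (E * (E * d)) = n • (E * (E * d)) := sub_eq_zero.1 q2
      have q7 : A * (A * d) = -(A * (E * d)) := eq_neg_of_add_eq_zero_right q3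
      simp only [mul_sub, mul_add, add_mul, smul_sub, smul_add, mul_smul_comm, smul_smul, ← sq,
        q4, q5, q6, q7]
      simp only [smul_neg]
      abel
  · rcases lt_trichotomy (t.v b) 0 with h2 | h2 | h2
    · have := (t.neg b a (by rw [add_comm, h]) h2).1
      omega
    · rw [opF_apply, opF_apply, h1, h2]
      have e := sym_st _ _ (t.zero a b h h1 h2)
      refine Prod.ext ?_ ?_
      · simp only [Prod.fst_zero]
        rw [← mul_assoc, e, zero_mul]
      · simp only [Prod.snd_zero, zero_smul, zero_sub, mul_neg, neg_neg]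
        rw [← mul_assoc, e, zero_mul]
    · rw [opF_apply, h1, (t.pos b a (by rw [add_comm, h]) h2).2, sym_one]
      refine Prod.ext ?_ ?_
      · simp
      · simp
  · obtain ⟨h2, h3⟩ := t.pos a b h h1
    have : t.opF b x = 0 := by
      rw [opF_apply, h2, h3, sym_one]
      refine Prod.ext ?_ ?_
      · simp
      · simp
    rw [this, map_zero]

/-- the ring homomorphism `KM K → End` -/
noncomputable def op : KM K →+* AddMonoid.End (KM k × KM k) :=
  lift t.opF t.opF_mul t.opF_st

/-- specialization and tame symbol together -/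
noncomputable def both : KM K →+ KM k × KM k where
  toFun x := t.op x (1, 0)
  map_zero' := by rw [map_zero]; rfl
  map_add' x y := by rw [map_add]; rfl

/-- the tame symbol -/
noncomputable def tame : KM K →+ KM k := (AddMonoidHom.snd _ _).comp t.both

theorem both_sym_mul (a : Kˣ) (x : KM K) : t.both (sym a * x) = t.opF a (t.both x) := by
  change t.op (sym a * x) (1, 0) = t.opF a (t.op x (1, 0))
  rw [map_mul]
  change (t.op (sym a)) (t.op x (1, 0)) = _
  unfold op
  rw [lift_sym]

theorem both_one : t.both 1 = (1, 0) := by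
  change t.op 1 (1, 0) = _
  rw [map_one]
  rfl

theorem both_fst (x : KM K) : (t.both x).1 = t.spec x := by
  induction x using induction_on with
  | h1 => rw [both_one, map_one]
  | h0 => simp
  | hadd x y hx hy => rw [map_add, map_add, Prod.fst_add, hx, hy]
  | hneg x hx => rw [map_neg, map_neg, Prod.fst_neg, hx]
  | hmul a y hy => rw [both_sym_mul, opF_apply, map_mul, spec_sym, hy]

theorem tame_one : t.tame 1 = 0 := by
  change (t.both 1).2 = 0
  rw [both_one]

theorem tame_sym_mul (a : Kˣ) (x : KM K) : t.tame (sym a * x) =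
    t.v a • (t.spec x + sym (-1) * t.tame x) - sym (t.ρ a) * t.tame x := by
  change (t.both (sym a * x)).2 = _
  rw [both_sym_mul, opF_apply, both_fst]
  rfl

theorem tame_sym (a : Kˣ) : t.tame (sym a) = t.v a • 1 := by
  have h := t.tame_sym_mul a 1
  rw [mul_one, tame_one, map_one] at h
  simpa using h

/-- units -/
theorem tame_sym_mul_of_zero {a : Kˣ} (ha : t.v a = 0) (x : KM K) :
    t.tame (sym a * x) = -(sym (t.ρ a) * t.tame x) := by
  rw [tame_sym_mul, ha, zero_smul, zero_sub]

theorem spec_mem_gr {n : ℕ} {x : KM K} (hx : x ∈ gr K n) : t.spec x ∈ gr k n := by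
  refine gr_induction (p := fun x => t.spec x ∈ gr k n) hx ?_ ?_ ?_ ?_
  · rw [map_zero]; exact zero_mem _
  · intro x y h1 h2; rw [map_add]; exact add_mem h1 h2
  · intro x h1; rw [map_neg]; exact neg_mem h1
  · intro l hl
    rw [map_list_prod, List.map_map]
    have := prod_mem_gr (l := l.map t.ρ) (n := n) (by simp [hl])
    rw [List.map_map] at this
    have e : ⇑t.spec ∘ sym = sym ∘ t.ρ := by
      funext a
      exact t.spec_sym a
    rw [e]
    exact this

theorem tame_prod_mem (l : List Kˣ) :
    ∀ n : ℕ, l.length = n + 1 → t.tame (l.map sym).prod ∈ gr k n := by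
  induction l with
  | nil => intro n h; simp at h
  | cons a l ih =>
    intro n hl
    rw [List.length_cons, Nat.add_right_cancel_iff] at hl
    rw [List.map_cons, List.prod_cons, tame_sym_mul]
    cases n with
    | zero =>
      have : l = [] := List.length_eq_zero_iff.1 hl
      subst this
      simp only [List.map_nil, List.prod_nil, map_one, tame_one, mul_zero, add_zero, sub_zero]
      exact AddSubgroup.zsmul_mem _ one_mem_gr _
    | succ n =>
      have h1 := ih n hl
      refine sub_mem (AddSubgroup.zsmul_mem _ (add_mem ?_ (sym_mul_mem_gr _ h1)) _)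
        (sym_mul_mem_gr _ h1)
      exact t.spec_mem_gr (prod_mem_gr hl)

theorem tame_mem_gr {n : ℕ} {x : KM K} (hx : x ∈ gr K (n + 1)) : t.tame x ∈ gr k n := by
  refine gr_induction (p := fun x => t.tame x ∈ gr k n) hx ?_ ?_ ?_ ?_
  · rw [map_zero]; exact zero_mem _
  · intro x y h1 h2; rw [map_add]; exact add_mem h1 h2
  · intro x h1; rw [map_neg]; exact neg_mem h1
  · intro l hl
    exact t.tame_prod_mem l n hl

theorem tame_eq_zero {s : Set Kˣ} (hs : ∀ a ∈ s, t.v a = 0) {x : KM K}
    (hx : x ∈ Subring.closure (sym '' s)) : t.tame x = 0 := by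
  have key : ∀ x ∈ Subring.closure (sym '' s), ∀ y, t.tame y = 0 → t.tame (x * y) = 0 := by
    intro x hx
    induction hx using Subring.closure_induction with
    | mem x hx =>
      obtain ⟨a, ha, rfl⟩ := hx
      intro y hy
      rw [tame_sym_mul_of_zero t (hs a ha), hy, mul_zero, neg_zero]
    | zero => intro y _; rw [zero_mul, map_zero]
    | one => intro y hy; rw [one_mul, hy]
    | add x y _ _ h1 h2 => intro z hz; rw [add_mul, map_add, h1 z hz, h2 z hz, add_zero]
    | neg x _ h1 => intro z hz; rw [neg_mul, map_neg, h1 z hz, neg_zero]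
    | mul x y _ _ h1 h2 => intro z hz; rw [mul_assoc]; exact h1 _ (h2 z hz)
  have := key x hx 1 t.tame_one
  rwa [mul_one] at this

end TS

end Pool.Agent.H14.KM
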