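import Pool.Agent.H2.KM.Targets

/-!
# Super-symmetric powers modulo numerical equivalence (MP_fd35e1_ag), row GCN: the contraction of
the first two places
-/

set_option autoImplicit false

open Matrix Pool.Agent.H2.NL Pool.Agent.H64.CC Pool.Agent.H2.KM

namespace Pool.Agent.H14.KM

section

variable {K : Type} [Field K] {I : Type} {o : I → Bool}

private theorem gp_sum {ι : Type} (S : Finset ι) (c : ι → K) : ∀ (s : List Bool)
    (f : ι → List I → List I → K) (w : List I),
    ∑ a ∈ S, c a * Gp o s (f a) w = Gp o s (fun u v => ∑ a ∈ S, c a * f a u v) w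
  | [], f, [] => rfl
  | [], f, a :: w => Finset.sum_eq_zero fun a _ => mul_zero (c a)
  | true :: s, f, [] => Finset.sum_eq_zero fun a _ => mul_zero (c a)
  | false :: s, f, [] => Finset.sum_eq_zero fun a _ => mul_zero (c a)
  | true :: s, f, b :: w => gp_sum S c s (fun a u v => f a (b :: u) v) w
  | false :: s, f, b :: w => by
    have h := gp_sum S c s (fun a u v => sgp K o b u * f a u (b :: v)) w
    change ∑ a ∈ S, c a * Gp o s (fun u v => sgp K o b u * f a u (b :: v)) w =
      Gp o s (fun u v => sgp K o b u * ∑ a ∈ S, c a * f a u (b :: v)) w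
    rw [h]
    congr 1
    funext u v
    rw [Finset.mul_sum]
    exact Finset.sum_congr rfl fun a _ => by ring

private theorem sgp_st [Fintype I] [DecidableEq I] (F : Form K I) (a : I) (u : List I) :
    sgp K F.o (F.st a) u = sgp K F.o a u := by
  unfold sgp
  rw [F.o_st]

end

theorem pf_GCN : T_GCN := by
  intro K _ I _ _ F x h h' s
  funext w
  have e0 : con F.η 0 (Gp F.o (h :: h' :: s) x) w =
      ∑ a, F.c a * Gp F.o (h :: h' :: s) x (a :: F.st a :: w) := by
    change ∑ a, ∑ b, F.η a b * Gp F.o (h :: h' :: s) x (a :: b :: w) = _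
    refine Finset.sum_congr rfl fun a _ => ?_
    rw [Finset.sum_eq_single (F.st a)]
    · change (if F.st a = F.st a then F.c a else 0) * _ = _
      rw [if_pos rfl]
    · intro b _ hb
      change (if b = F.st a then F.c a else 0) * _ = _
      rw [if_neg hb, zero_mul]
    · intro hn
      exact (hn (Finset.mem_univ _)).elim
  rw [e0]
  cases h <;> cases h'
  · change ∑ a, F.c a * Gp F.o s (fun u v => sgp K F.o (F.st a) u *
        (sgp K F.o a u * x u (a :: F.st a :: v))) w = Gp F.o s (opB F x) w
    rw [gp_sum]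
    congr 1
    funext u v
    refine Finset.sum_congr rfl fun a _ => ?_
    have e := sgp_sq (K := K) F.o a u
    rw [sgp_st]
    linear_combination (F.c a * x u (a :: F.st a :: v)) * e
  · change ∑ a, F.c a * Gp F.o s (fun u v => sgp K F.o a (F.st a :: u) *
        x (F.st a :: u) (a :: v)) w = Gp F.o s (opC F x) w
    rw [gp_sum]
    congr 1
    funext u v
    have hinv : Function.Involutive F.st := F.st_st
    change ∑ a, F.c a * (sgp K F.o a (F.st a :: u) * x (F.st a :: u) (a :: v)) =
      ∑ a, F.c a * sgp K F.o a u * x (a :: u) (F.st a :: v)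
    refine Fintype.sum_equiv hinv.toPerm _ _ fun a => ?_
    change F.c a * (sgp K F.o a (F.st a :: u) * x (F.st a :: u) (a :: v)) =
      F.c (F.st a) * sgp K F.o (F.st a) u * x (F.st a :: u) (F.st (F.st a) :: v)
    rw [F.st_st, F.c_st, sgp_st, sgp_cons, F.o_st]
    have e : ks K (F.o a) (F.o a) = sg K (F.o a) := by
      unfold ks sg
      simp
    rw [e]
    ring
  · change ∑ a, F.c a * Gp F.o s (fun u v => sgp K F.o (F.st a) u *
        x (a :: u) (F.st a :: v)) w = Gp F.o s (opC F x) w
    rw [gp_sum]
    congr 1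
    funext u v
    refine Finset.sum_congr rfl fun a _ => ?_
    rw [sgp_st, mul_assoc]
  · change ∑ a, F.c a * Gp F.o s (fun u v => x (a :: F.st a :: u) v) w = Gp F.o s (opA F x) w
    rw [gp_sum]
    rfl

end Pool.Agent.H14.KM
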