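import Pool.Agent.H2.KM.Targets

/-!
# Super-symmetric powers modulo numerical equivalence (MP_fd35e1_ag), row GSW: an exchange changes
the pattern
-/

set_option autoImplicit false

open Matrix Pool.Agent.H2.NL Pool.Agent.H64.CC Pool.Agent.H2.KM

namespace Pool.Agent.H14.KM

section

variable {K : Type} [Field K] {I : Type} {o : I → Bool}

private theorem gp_smul (c : K) : ∀ (s : List Bool) (x : List I → List I → K) (w : List I),
    c * Gp o s x w = Gp o s (fun u v => c * x u v) w
  | [], x, [] => rfl
  | [], x, a :: w => mul_zero c
  | true :: s, x, [] => mul_zero c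
  | false :: s, x, [] => mul_zero c
  | true :: s, x, a :: w => gp_smul c s (fun u v => x (a :: u) v) w
  | false :: s, x, a :: w => by
    have h := gp_smul c s (fun u v => sgp K o a u * x u (a :: v)) w
    change c * Gp o s (fun u v => sgp K o a u * x u (a :: v)) w =
      Gp o s (fun u v => sgp K o a u * (c * x u (a :: v))) w
    rw [h]
    congr 1
    funext u v
    ring

private theorem gp_nil (h : Bool) (s : List Bool) (x : List I → List I → K) :
    Gp o (h :: s) x [] = 0 := by
  cases h <;> rfl

private theorem gp_one (h h' : Bool) (s : List Bool) (x : List I → List I → K) (a : I) :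
    Gp o (h :: h' :: s) x [a] = 0 := by
  cases h
  · exact gp_nil h' s _
  · exact gp_nil h' s _

private theorem gp_two (h : Bool) (x : List I → List I → K) (a b : I) (l : List I) :
    Gp o [h] x (a :: b :: l) = 0 := by
  cases h <;> rfl

private theorem gs_true {x : List I → List I → K} (hx : GS o x) (a : I) :
    GS o fun u v => x (a :: u) v where
  up j u v := hx.up (j + 1) (a :: u) v
  lo j u v := hx.lo j (a :: u) v

private theorem gs_false {x : List I → List I → K} (hx : GS o x) (a : I) :
    GS o fun u v => sgp K o a u * x u (a :: v) where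
  up j u v := by
    have h := hx.up j u (a :: v)
    rw [sw_eq] at h ⊢
    rw [sgp_perm o a (ex_perm j u), mul_left_comm, h]
  lo j u v := by
    have h := hx.lo (j + 1) u (a :: v)
    change sw o j (fun v => x u (a :: v)) v = x u (a :: v) at h
    rw [sw_eq] at h ⊢
    rw [mul_left_comm, h]

private theorem step0 {x : List I → List I → K} (hx : GS o x) (s : List Bool) :
    sw o 0 (Gp o s x) = Gp o (ex 0 s) x := by
  funext w
  rcases s with - | ⟨h, - | ⟨h', s⟩⟩
  · rcases w with - | ⟨a, - | ⟨b, l⟩⟩
    · rfl
    · rfl
    · exact mul_zero _
  · rcases w with - | ⟨a, - | ⟨b, l⟩⟩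
    · rfl
    · rfl
    · change ks K (o a) (o b) * Gp o [h] x (b :: a :: l) = Gp o [h] x (a :: b :: l)
      rw [gp_two, gp_two, mul_zero]
  · rcases w with - | ⟨a, - | ⟨b, l⟩⟩
    · change Gp o (h :: h' :: s) x [] = Gp o (h' :: h :: s) x []
      rw [gp_nil, gp_nil]
    · change Gp o (h :: h' :: s) x [a] = Gp o (h' :: h :: s) x [a]
      rw [gp_one, gp_one]
    · change ks K (o a) (o b) * Gp o (h :: h' :: s) x (b :: a :: l) =
        Gp o (h' :: h :: s) x (a :: b :: l)
      rw [gp_smul]
      cases h <;> cases h'
      · change Gp o s (fun u v => sgp K o a u * (sgp K o b u *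
            (ks K (o a) (o b) * x u (b :: a :: v)))) l =
          Gp o s (fun u v => sgp K o b u * (sgp K o a u * x u (a :: b :: v))) l
        congr 1
        funext u v
        have e : ks K (o a) (o b) * x u (b :: a :: v) = x u (a :: b :: v) :=
          hx.lo 0 u (a :: b :: v)
        rw [e]
        ring
      · change Gp o s (fun u v => sgp K o b (a :: u) *
            (ks K (o a) (o b) * x (a :: u) (b :: v))) l =
          Gp o s (fun u v => sgp K o b u * x (a :: u) (b :: v)) l
        congr 1
        funext u v
        have e := ks_sq (K := K) (o a) (o b)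
        rw [sgp_cons, ks_comm (o b) (o a)]
        linear_combination (sgp K o b u * x (a :: u) (b :: v)) * e
      · change Gp o s (fun u v => sgp K o a u * (ks K (o a) (o b) * x (b :: u) (a :: v))) l =
          Gp o s (fun u v => sgp K o a (b :: u) * x (b :: u) (a :: v)) l
        congr 1
        funext u v
        rw [sgp_cons]
        ring
      · change Gp o s (fun u v => ks K (o a) (o b) * x (b :: a :: u) v) l =
          Gp o s (fun u v => x (a :: b :: u) v) l
        congr 1
        funext u v
        exact hx.up 0 (a :: b :: u) v

end

theorem pf_GSW : T_GSW := by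
  intro K _ I o x hx s j
  induction j generalizing x s with
  | zero => exact step0 hx s
  | succ j ih =>
    funext w
    rcases s with - | ⟨h, s⟩
    · rcases w with - | ⟨a, l⟩
      · rfl
      · change sw o j (fun l' => Gp o [] x (a :: l')) l = 0
        rw [sw_eq]
        exact mul_zero _
    · rcases w with - | ⟨a, l⟩
      · change Gp o (h :: s) x [] = Gp o (h :: ex j s) x []
        rw [gp_nil, gp_nil]
      · cases h
        · exact congrFun (ih _ (gs_false hx a) s) l
        · exact congrFun (ih _ (gs_true hx a) s) l

end Pool.Agent.H14.KM
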