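import Mathlib
import Pool.Agent.H62.MK.Defs

/-!
# The kernel of `K_n(R) → K_n(S)` for a surjective local homomorphism
-/

namespace Pool.Agent.H14.KM

open Function

universe u v w

section pres

variable {S : Type u} [CommRing S] {n : ℕ}

/-- Construction of a homomorphism on a Milnor K-group from values on lifts of symbols. -/
theorem exists_hom_of_lifts {A : Type v} [AddCommGroup A] {T : Type w} (p : T → (Fin n → Sˣ))
    (hp : Surjective p) (F : T → A) (hw : ∀ t t', p t = p t' → F t = F t')
    (hm : ∀ (t t₁ t₂ : T) (b : Fin n → Sˣ) (i : Fin n) (x y : Sˣ),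
      p t = update b i (x * y) → p t₁ = update b i x → p t₂ = update b i y →
      F t = F t₁ + F t₂)
    (hs : ∀ (t : T) (i : ℕ) (hi : i + 1 < n),
      (p t ⟨i, by omega⟩ : S) + (p t ⟨i + 1, hi⟩ : S) = 1 → F t = 0) :
    ∃ ψ : H62.MK.MilnorK S n →+ A, ∀ t, ψ (H62.MK.sym (p t)) = F t := by
  choose ℓ hℓ using hp
  refine ⟨H62.MK.lift (fun b => F (ℓ b)) ?_ ?_, fun t => ?_⟩
  · intro b i x y
    exact hm _ _ _ b i x y (hℓ _) (hℓ _) (hℓ _)
  · intro b i hi h
    refine hs _ i hi ?_
    rw [hℓ]
    exact h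
  · rw [H62.MK.lift_sym]
    exact hw _ _ (hℓ _)

end pres

section ker

variable {R : Type u} {S : Type v} [CommRing R] [CommRing S] (φ : R →+* S) (n : ℕ)

/-- The subgroup generated by the symbols with an entry in the kernel of `Rˣ → Sˣ`. -/
noncomputable def oneSub : AddSubgroup (H62.MK.MilnorK R n) :=
  AddSubgroup.closure {z | ∃ (a : Fin n → Rˣ) (j : Fin n), φ (a j) = 1 ∧ H62.MK.sym a = z}

variable {φ n}

theorem sym_mem_oneSub {a : Fin n → Rˣ} {j : Fin n} (h : φ (a j) = 1) :
    H62.MK.sym a ∈ oneSub φ n := AddSubgroup.subset_closure ⟨a, j, h, rfl⟩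

theorem sym_update_one (a : Fin n → Rˣ) (j : Fin n) : H62.MK.sym (update a j 1) = 0 := by
  have h := H62.MK.sym_update_mul a j 1 1
  rw [mul_one] at h
  exact left_eq_add.1 h

theorem sym_eq_zero_of_one {a : Fin n → Rˣ} {j : Fin n} (h : a j = 1) : H62.MK.sym a = 0 := by
  rw [← update_eq_self j a, h]
  exact sym_update_one a j

theorem map_eq_zero_of_mem_oneSub {x : H62.MK.MilnorK R n} (h : x ∈ oneSub φ n) :
    H62.MK.map φ n x = 0 := by
  induction h using AddSubgroup.closure_induction with
  | mem z hz =>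
    obtain ⟨a, j, hj, rfl⟩ := hz
    rw [H62.MK.map_sym]
    refine sym_eq_zero_of_one (j := j) ?_
    apply Units.ext
    simpa using hj
  | zero => simp
  | add x y _ _ hx hy => rw [map_add, hx, hy, add_zero]
  | neg x _ hx => rw [map_neg, hx, neg_zero]

/-- Two symbols whose entries have the same images agree up to symbols with an entry in the
kernel. -/
theorem sym_sub_mem_oneSub {a a' : Fin n → Rˣ} (h : ∀ j, φ (a j) = φ (a' j)) :
    H62.MK.sym a' - H62.MK.sym a ∈ oneSub φ n := by
  classical
  have key : ∀ s : Finset (Fin n),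
      H62.MK.sym (s.piecewise a' a) - H62.MK.sym a ∈ oneSub φ n := by
    intro s
    induction s using Finset.induction_on with
    | empty => simp
    | insert i s hi ih =>
      have e : (insert i s).piecewise a' a
          = update (s.piecewise a' a) i (a i * ((a i)⁻¹ * a' i)) := by
        rw [Finset.piecewise_insert]
        congr 1
        group
      have e2 : update (s.piecewise a' a) i (a i) = s.piecewise a' a := by
        conv_rhs => rw [← update_eq_self i (s.piecewise a' a)]
        rw [Finset.piecewise_eq_of_notMem _ _ _ hi]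
      rw [e, H62.MK.sym_update_mul, e2, add_sub_right_comm]
      refine add_mem ih (sym_mem_oneSub (j := i) ?_)
      rw [update_self]
      have h1 : φ (((a i)⁻¹ * a' i : Rˣ) : R) = φ (((a i)⁻¹ * a i : Rˣ) : R) := by
        rw [Units.val_mul, Units.val_mul, map_mul, map_mul, h]
      rw [h1, inv_mul_cancel]
      simp
  have := key Finset.univ
  rwa [Finset.piecewise_univ] at this

theorem exists_unit_lift [IsLocalHom φ] (hφ : Surjective φ) (b : Sˣ) :
    ∃ a : Rˣ, Units.map φ.toMonoidHom a = b := by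
  obtain ⟨a, ha⟩ := hφ b
  have hu : IsUnit a := by
    have : IsUnit (φ a) := by rw [ha]; exact b.isUnit
    exact isUnit_of_map_unit φ a this
  refine ⟨hu.unit, Units.ext ?_⟩
  simpa using ha

theorem exists_unit_lifts [IsLocalHom φ] (hφ : Surjective φ) (b : Fin n → Sˣ) :
    ∃ a : Fin n → Rˣ, (fun j => Units.map φ.toMonoidHom (a j)) = b := by
  choose a ha using fun j => exists_unit_lift hφ (b j)
  exact ⟨a, funext ha⟩

/-- The map on Milnor K-groups for a surjective local homomorphism is surjective. -/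
theorem map_surjective [IsLocalHom φ] (hφ : Surjective φ) (n : ℕ) :
    Surjective (H62.MK.map φ n) := by
  intro y
  refine H62.MK.MilnorK.induction (p := fun y => ∃ x, H62.MK.map φ n x = y) y ⟨0, map_zero _⟩
    ?_ ?_ ?_
  · intro b
    obtain ⟨a, ha⟩ := exists_unit_lifts hφ b
    exact ⟨H62.MK.sym a, by rw [H62.MK.map_sym, ha]⟩
  · rintro _ ⟨x, rfl⟩
    exact ⟨-x, map_neg _ _⟩
  · rintro _ _ ⟨x, rfl⟩ ⟨y, rfl⟩
    exact ⟨x + y, map_add _ _ _⟩

/-- The kernel of the map on Milnor K-groups for a surjective local homomorphism. -/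
theorem mem_oneSub_of_map_eq_zero [IsLocalHom φ] (hφ : Surjective φ)
    {x : H62.MK.MilnorK R n} (h : H62.MK.map φ n x = 0) : x ∈ oneSub φ n := by
  have hex : ∃ ψ : H62.MK.MilnorK S n →+ H62.MK.MilnorK R n ⧸ oneSub φ n,
      ∀ a : Fin n → Rˣ, ψ (H62.MK.sym fun j => Units.map φ.toMonoidHom (a j))
        = QuotientAddGroup.mk (H62.MK.sym a) := by
    refine exists_hom_of_lifts
      (fun a : Fin n → Rˣ => fun j => Units.map φ.toMonoidHom (a j)) (exists_unit_lifts hφ)
      (fun a => QuotientAddGroup.mk (H62.MK.sym a)) ?_ ?_ ?_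
    · intro a a' haa'
      refine QuotientAddGroup.eq.2 ?_
      rw [neg_add_eq_sub]
      refine sym_sub_mem_oneSub fun j => ?_
      exact congrArg Units.val (congrFun haa' j)
    · intro a a₁ a₂ b i x y h0 h1 h2
      have e1 : (QuotientAddGroup.mk (H62.MK.sym a) : H62.MK.MilnorK R n ⧸ oneSub φ n)
          = QuotientAddGroup.mk (H62.MK.sym (update a i (a₁ i * a₂ i))) := by
        refine QuotientAddGroup.eq.2 ?_
        rw [neg_add_eq_sub]
        refine sym_sub_mem_oneSub fun j => ?_
        have q0 := congrArg Units.val (congrFun h0 j)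
        have q1 := congrArg Units.val (congrFun h1 i)
        have q2 := congrArg Units.val (congrFun h2 i)
        by_cases hj : j = i
        · subst hj
          simp only [update_self] at q0 q1 q2 ⊢
          rw [Units.val_mul, map_mul]
          change φ (a j) = _ at q0
          change φ (a₁ j) = _ at q1
          change φ (a₂ j) = _ at q2
          rw [q0, q1, q2, Units.val_mul]
        · rw [update_of_ne hj]
      have e2 : (QuotientAddGroup.mk (H62.MK.sym a₁) : H62.MK.MilnorK R n ⧸ oneSub φ n)
          = QuotientAddGroup.mk (H62.MK.sym (update a i (a₁ i))) := by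
        refine QuotientAddGroup.eq.2 ?_
        rw [neg_add_eq_sub]
        refine sym_sub_mem_oneSub fun j => ?_
        have q0 := congrArg Units.val (congrFun h0 j)
        have q1 := congrArg Units.val (congrFun h1 j)
        by_cases hj : j = i
        · subst hj; rw [update_self]
        · rw [update_of_ne hj] at q0 q1 ⊢
          exact q1.trans q0.symm
      have e3 : (QuotientAddGroup.mk (H62.MK.sym a₂) : H62.MK.MilnorK R n ⧸ oneSub φ n)
          = QuotientAddGroup.mk (H62.MK.sym (update a i (a₂ i))) := by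
        refine QuotientAddGroup.eq.2 ?_
        rw [neg_add_eq_sub]
        refine sym_sub_mem_oneSub fun j => ?_
        have q0 := congrArg Units.val (congrFun h0 j)
        have q1 := congrArg Units.val (congrFun h2 j)
        by_cases hj : j = i
        · subst hj; rw [update_self]
        · rw [update_of_ne hj] at q0 q1 ⊢
          exact q1.trans q0.symm
      show (QuotientAddGroup.mk (H62.MK.sym a) : H62.MK.MilnorK R n ⧸ oneSub φ n)
        = QuotientAddGroup.mk (H62.MK.sym a₁) + QuotientAddGroup.mk (H62.MK.sym a₂)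
      rw [e1, e2, e3, H62.MK.sym_update_mul]
      rfl
    · intro a i hi h1
      change φ (a ⟨i, by omega⟩) + φ (a ⟨i + 1, hi⟩) = 1 at h1
      have hu : IsUnit (1 - (a ⟨i, by omega⟩ : R)) := by
        refine isUnit_of_map_unit φ _ ?_
        have : φ (1 - (a ⟨i, by omega⟩ : R)) = φ (a ⟨i + 1, hi⟩) := by
          rw [map_sub, map_one, ← h1, add_sub_cancel_left]
        rw [this]
        exact ((a ⟨i + 1, hi⟩).isUnit).map φ
      have e1 : (QuotientAddGroup.mk (H62.MK.sym a) : H62.MK.MilnorK R n ⧸ oneSub φ n)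
          = QuotientAddGroup.mk (H62.MK.sym (update a ⟨i + 1, hi⟩ hu.unit)) := by
        refine QuotientAddGroup.eq.2 ?_
        rw [neg_add_eq_sub]
        refine sym_sub_mem_oneSub fun j => ?_
        by_cases hj : j = ⟨i + 1, hi⟩
        · subst hj
          rw [update_self, IsUnit.unit_spec, map_sub, map_one, ← h1, add_sub_cancel_left]
        · rw [update_of_ne hj]
      show (QuotientAddGroup.mk (H62.MK.sym a) : H62.MK.MilnorK R n ⧸ oneSub φ n) = 0
      rw [e1, H62.MK.sym_steinberg _ i hi]
      · rfl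
      · rw [update_self, update_of_ne, IsUnit.unit_spec]
        · ring
        · intro h
          have := congrArg Fin.val h
          simp at this
  obtain ⟨ψ, hψ⟩ := hex
  have h1 : ψ.comp (H62.MK.map φ n) = QuotientAddGroup.mk' (oneSub φ n) := by
    refine H62.MK.hom_ext fun a => ?_
    rw [AddMonoidHom.comp_apply, H62.MK.map_sym, hψ]
    rfl
  have h2 := DFunLike.congr_fun h1 x
  rw [AddMonoidHom.comp_apply, h, map_zero] at h2
  exact (QuotientAddGroup.eq_zero_iff x).1 h2.symm

theorem map_eq_zero_iff [IsLocalHom φ] (hφ : Surjective φ) {x : H62.MK.MilnorK R n} :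
    H62.MK.map φ n x = 0 ↔ x ∈ oneSub φ n :=
  ⟨mem_oneSub_of_map_eq_zero hφ, map_eq_zero_of_mem_oneSub⟩

/-- The kernel of `K_n(R) → K_n(S) / q`. -/
theorem exists_of_map_eq_smul [IsLocalHom φ] (hφ : Surjective φ) {q : ℕ}
    {x : H62.MK.MilnorK R n} (h : ∃ y, q • y = H62.MK.map φ n x) :
    ∃ y, x - q • y ∈ oneSub φ n := by
  obtain ⟨y, hy⟩ := h
  obtain ⟨z, rfl⟩ := map_surjective hφ n y
  refine ⟨z, mem_oneSub_of_map_eq_zero hφ ?_⟩
  rw [map_sub, map_nsmul, hy, sub_self]

/-- A homomorphism on `K_n(R)` killed by `q` and vanishing on the symbols with an entry in the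
kernel of `Rˣ → Sˣ` vanishes on the kernel of `K_n(R) → K_n(S) / q`. -/
theorem hom_eq_zero [IsLocalHom φ] (hφ : Surjective φ) {q : ℕ} {A : Type w} [AddCommGroup A]
    (ψ : H62.MK.MilnorK R n →+ A) (hq : ∀ a, q • ψ (H62.MK.sym a) = 0)
    (h1 : ∀ a : Fin n → Rˣ, (∃ j, φ (a j) = 1) → ψ (H62.MK.sym a) = 0)
    {x : H62.MK.MilnorK R n} (h : ∃ y, q • y = H62.MK.map φ n x) : ψ x = 0 := by
  obtain ⟨y, hy⟩ := exists_of_map_eq_smul hφ h
  have e1 : ∀ z ∈ oneSub φ n, ψ z = 0 := by
    intro z hz
    induction hz using AddSubgroup.closure_induction with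
    | mem z hz =>
      obtain ⟨a, j, hj, rfl⟩ := hz
      exact h1 a ⟨j, hj⟩
    | zero => simp
    | add x y _ _ hx hy => rw [map_add, hx, hy, add_zero]
    | neg x _ hx => rw [map_neg, hx, neg_zero]
  have e2 : ∀ z, q • ψ z = 0 := by
    intro z
    refine H62.MK.MilnorK.induction (p := fun z => q • ψ z = 0) z (by simp) hq ?_ ?_
    · intro x hx; rw [map_neg, smul_neg, hx, neg_zero]
    · intro x y hx hy; rw [map_add, smul_add, hx, hy, add_zero]
  have e3 := e1 _ hy
  rw [map_sub, map_nsmul, e2, sub_zero] at e3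
  exact e3

end ker

end Pool.Agent.H14.KM
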