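import Pool.Agent.H14.KM.Defs

/-!
# Milnor K-theory: extensions of discrete valuations
-/

set_option autoImplicit false

namespace Pool.Agent.H14.KM

universe u v w z

namespace TS

variable {K : Type u} {k : Type v} {K' : Type w} {k' : Type z} [Field K] [Field k] [Field K']
  [Field k']

/-- An extension of discrete valuations with ramification index `e`. -/
structure Mor (t : TS K k) (t' : TS K' k') where
  j : K →+* K'
  i : k →+* k'
  e : ℤ
  c : k'ˣ
  hv : ∀ a, t'.v (Units.map j.toMonoidHom a) = e * t.v a
  hρ : ∀ a, t'.ρ (Units.map j.toMonoidHom a) = Units.map i.toMonoidHom (t.ρ a) * c ^ t.v a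

variable {t : TS K k} {t' : TS K' k'} (m : Mor t t')

theorem Mor.opF_map (a : Kˣ) (s d : KM k) :
    t'.opF (Units.map m.j.toMonoidHom a)
        (map m.i s + sym m.c * map m.i d, m.e • map m.i d) =
      (map m.i (sym (t.ρ a) * s) +
        sym m.c * map m.i (t.v a • (s + sym (-1) * d) - sym (t.ρ a) * d),
      m.e • map m.i (t.v a • (s + sym (-1) * d) - sym (t.ρ a) * d)) := by
  have hE : map m.i (sym (-1)) = sym (-1) := by
    rw [map_sym]
    congr 1
    ext
    simp
  rw [opF_apply, m.hv, m.hρ, sym_mul, sym_zpow]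
  simp only [map_mul, map_sub, map_zsmul, map_add, hE, map_sym]
  generalize map m.i s = S
  generalize map m.i d = D
  generalize t.v a = n
  have e3 : sym (Units.map m.i.toMonoidHom (t.ρ a)) * sym m.c =
      -(sym m.c * sym (Units.map m.i.toMonoidHom (t.ρ a))) := sym_anticomm _ _
  have e4 : sym m.c * sym m.c = sym m.c * sym (-1) := sym_self _
  have q2 : (m.e * n * m.e - m.e * n) • (sym (-1 : k'ˣ) * D) = 0 := even_smul _ (by
    have h1 := Int.even_mul_pred_self m.e
    have h2 : m.e * n * m.e - m.e * n = m.e * (m.e - 1) * n := by ring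
    rw [h2]
    exact h1.mul_right _)
  generalize sym (Units.map m.i.toMonoidHom (t.ρ a)) = A at e3
  generalize sym m.c = C at e3 e4
  generalize sym (-1 : k'ˣ) = E at e4 q2
  rw [sub_smul] at q2
  have q6 := sub_eq_zero.1 q2
  have q7 : A * (C * D) = -(C * (A * D)) := by
    rw [← mul_assoc, e3, neg_mul, mul_assoc]
  have q8 : C * (C * D) = C * (E * D) := by
    rw [← mul_assoc, e4, mul_assoc]
  refine Prod.ext ?_ ?_
  · simp only [mul_add, add_mul, mul_sub, mul_smul_comm, smul_mul_assoc, smul_add, q7, q8]
    abel
  · simp only [add_mul, mul_smul_comm, smul_mul_assoc, smul_add, smul_sub, smul_smul, q6]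
    abel

theorem Mor.both_map (x : KM K) : t'.both (map m.j x) =
    (map m.i (t.spec x) + sym m.c * map m.i (t.tame x), m.e • map m.i (t.tame x)) := by
  induction x using induction_on with
  | h1 =>
    rw [map_one, both_one, map_one, tame_one, map_one, map_zero]
    simp
  | h0 =>
    simp only [map_zero, mul_zero, add_zero, smul_zero]
    rfl
  | hadd x y hx hy =>
    rw [map_add, map_add, hx, hy]
    refine Prod.ext ?_ ?_
    · simp only [map_add, mul_add, Prod.fst_add]
      abel
    · simp only [map_add, smul_add, Prod.snd_add]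
  | hneg x hx =>
    rw [map_neg, map_neg, hx]
    refine Prod.ext ?_ ?_
    · simp only [map_neg, mul_neg, Prod.fst_neg]
      abel
    · simp only [map_neg, smul_neg, Prod.snd_neg]
  | hmul a y hy =>
    rw [map_mul, map_sym, both_sym_mul, hy, m.opF_map, tame_sym_mul, map_mul (t.spec), spec_sym]

theorem Mor.tame_map (x : KM K) : t'.tame (map m.j x) = m.e • map m.i (t.tame x) := by
  change (t'.both (map m.j x)).2 = _
  rw [m.both_map]

theorem Mor.spec_map (x : KM K) :
    t'.spec (map m.j x) = map m.i (t.spec x) + sym m.c * map m.i (t.tame x) := by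
  rw [← both_fst, m.both_map]

/-- units for the big valuation -/
theorem tame_map_eq_zero (t' : TS K' k') (j : K →+* K')
    (h : ∀ a, t'.v (Units.map j.toMonoidHom a) = 0) (x : KM K) : t'.tame (map j x) = 0 := by
  induction x using induction_on with
  | h1 => rw [map_one, tame_one]
  | h0 => simp
  | hadd x y hx hy => rw [map_add, map_add, hx, hy, add_zero]
  | hneg x hx => rw [map_neg, map_neg, hx, neg_zero]
  | hmul a y hy => rw [map_mul, map_sym, tame_sym_mul_of_zero t' (h a), hy, mul_zero, neg_zero]

/-- the tame symbol does not depend on the uniformizer -/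
theorem tame_congr (t t' : TS K k) (hv : ∀ a, t'.v a = t.v a) (c : kˣ)
    (hρ : ∀ a, t'.ρ a = t.ρ a * c ^ t.v a) (x : KM K) : t'.tame x = t.tame x := by
  have h := Mor.tame_map (t := t) (t' := t') ⟨RingHom.id K, RingHom.id k, 1, c,
    fun a => by rw [one_mul]; exact hv a, fun a => hρ a⟩ x
  rw [map_id, map_id, one_smul] at h
  exact h

end TS

end Pool.Agent.H14.KM
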