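import Pool.Agent.H14.KM.Mor

/-!
# Milnor K-theory: discrete valuations of a fraction field
-/

set_option autoImplicit false
set_option linter.unusedSectionVars false

namespace Pool.Agent.H14.KM

universe u v w

/-- Valuation data on a domain: `v` and the residue `ρ x` of `x / π ^ v x`. -/
structure PV (D : Type u) (k : Type v) [CommRing D] [Field k] where
  v : D → ℤ
  ρ : D → k
  ne : ∀ x, x ≠ 0 → ρ x ≠ 0
  v_mul : ∀ x y, x ≠ 0 → y ≠ 0 → v (x * y) = v x + v y
  ρ_mul : ∀ x y, x ≠ 0 → y ≠ 0 → ρ (x * y) = ρ x * ρ y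
  v_neg : ∀ x, x ≠ 0 → v (-x) = v x
  ρ_neg : ∀ x, x ≠ 0 → ρ (-x) = -ρ x
  lt : ∀ x y, x ≠ 0 → y ≠ 0 → x + y ≠ 0 → v x < v y → v (x + y) = v x ∧ ρ (x + y) = ρ x
  eq : ∀ x y, x ≠ 0 → y ≠ 0 → x + y ≠ 0 → v x = v (x + y) → v y = v (x + y) →
    ρ x + ρ y = ρ (x + y)

namespace PV

variable {D : Type u} {k : Type v} [CommRing D] [IsDomain D] [Field k] (p : PV D k)
  {K : Type w} [Field K] [Algebra D K] [IsFractionRing D K]

theorem exists_frac (a : Kˣ) : ∃ x : D × D, x.1 ≠ 0 ∧ x.2 ≠ 0 ∧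
    (a : K) * algebraMap D K x.2 = algebraMap D K x.1 := by
  obtain ⟨x, y, hy, h⟩ := IsFractionRing.div_surjective (A := D) (a : K)
  have hy0 : y ≠ 0 := nonZeroDivisors.ne_zero hy
  have hy1 : algebraMap D K y ≠ 0 := fun h1 =>
    hy0 ((injective_iff_map_eq_zero _).1 (IsFractionRing.injective D K) y h1)
  have h2 : (a : K) * algebraMap D K y = algebraMap D K x := by
    rw [← h, div_mul_cancel₀ _ hy1]
  refine ⟨(x, y), ?_, hy0, h2⟩
  rintro rfl
  simp only [map_zero] at h2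
  rcases mul_eq_zero.1 h2 with h3 | h3
  · exact a.ne_zero h3
  · exact hy1 h3

variable (D) in
/-- numerator and denominator -/
noncomputable def fr (a : Kˣ) : D × D := (exists_frac (D := D) a).choose

theorem fr_spec (a : Kˣ) : (fr D a).1 ≠ 0 ∧ (fr D a).2 ≠ 0 ∧
    (a : K) * algebraMap D K (fr D a).2 = algebraMap D K (fr D a).1 :=
  (exists_frac (D := D) a).choose_spec

/-- the valuation on units of the fraction field -/
noncomputable def vK (a : Kˣ) : ℤ := p.v (fr D a).1 - p.v (fr D a).2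

/-- the residues of units of the fraction field -/
noncomputable def rK (a : Kˣ) : kˣ :=
  Units.mk0 (p.ρ (fr D a).1 / p.ρ (fr D a).2)
    (div_ne_zero (p.ne _ (fr_spec a).1) (p.ne _ (fr_spec a).2.1))

variable {p}

theorem cross {a : K} {x y x' y' : D} (h : a * algebraMap D K y = algebraMap D K x)
    (h' : a * algebraMap D K y' = algebraMap D K x') : x * y' = x' * y := by
  apply IsFractionRing.injective D K
  rw [map_mul, map_mul, ← h, ← h']
  ring

theorem vK_eq {a : Kˣ} {x y : D} (hx : x ≠ 0) (hy : y ≠ 0)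
    (h : (a : K) * algebraMap D K y = algebraMap D K x) : p.vK a = p.v x - p.v y := by
  obtain ⟨h1, h2, h3⟩ := fr_spec (D := D) a
  have h4 := cross h h3
  have h5 := p.v_mul _ _ hx h2
  have h6 := p.v_mul _ _ h1 hy
  rw [h4] at h5
  unfold vK
  omega

theorem rK_eq {a : Kˣ} {x y : D} (hx : x ≠ 0) (hy : y ≠ 0)
    (h : (a : K) * algebraMap D K y = algebraMap D K x) :
    (p.rK a : k) = p.ρ x / p.ρ y := by
  obtain ⟨h1, h2, h3⟩ := fr_spec (D := D) a
  have h4 := cross h h3
  have h5 := p.ρ_mul _ _ hx h2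
  have h6 := p.ρ_mul _ _ h1 hy
  rw [h4, h6] at h5
  unfold rK
  rw [Units.val_mk0, div_eq_div_iff (p.ne _ h2) (p.ne _ hy), h5]

variable (p)

/-- the discrete valuation of the fraction field -/
noncomputable def ts (K : Type w) [Field K] [Algebra D K] [IsFractionRing D K] : TS K k := by
  have inj := IsFractionRing.injective D K
  -- common denominators
  have com : ∀ a b : Kˣ, (a : K) + b = 1 → ∃ x y : D, x ≠ 0 ∧ y ≠ 0 ∧ x + y ≠ 0 ∧
      (a : K) * algebraMap D K (x + y) = algebraMap D K x ∧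
      (b : K) * algebraMap D K (x + y) = algebraMap D K y := by
    intro a b hab
    obtain ⟨a1, a2, a3⟩ := fr_spec (D := D) a
    obtain ⟨b1, b2, b3⟩ := fr_spec (D := D) b
    have e : (fr D a).1 * (fr D b).2 + (fr D b).1 * (fr D a).2 = (fr D a).2 * (fr D b).2 := by
      apply inj
      rw [map_add, map_mul, map_mul, map_mul, ← a3, ← b3]
      have : (a : K) * algebraMap D K (fr D a).2 * algebraMap D K (fr D b).2 +
          (b : K) * algebraMap D K (fr D b).2 * algebraMap D K (fr D a).2 =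
          ((a : K) + b) * (algebraMap D K (fr D a).2 * algebraMap D K (fr D b).2) := by ring
      rw [this, hab, one_mul]
    refine ⟨(fr D a).1 * (fr D b).2, (fr D b).1 * (fr D a).2, mul_ne_zero a1 b2,
      mul_ne_zero b1 a2, ?_, ?_, ?_⟩
    · rw [e]
      exact mul_ne_zero a2 b2
    · rw [e, map_mul, map_mul, ← a3]
      ring
    · rw [e, map_mul, map_mul, ← b3]
      ring
  exact
  { v := p.vK
    ρ := p.rK
    v_mul := fun a b => by
      obtain ⟨a1, a2, a3⟩ := fr_spec (D := D) a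
      obtain ⟨b1, b2, b3⟩ := fr_spec (D := D) b
      have h := vK_eq (p := p) (a := a * b) (mul_ne_zero a1 b1) (mul_ne_zero a2 b2) (by
        rw [Units.val_mul, map_mul, map_mul, ← a3, ← b3]
        ring)
      rw [h, p.v_mul _ _ a1 b1, p.v_mul _ _ a2 b2]
      unfold vK
      ring
    ρ_mul := fun a b => by
      obtain ⟨a1, a2, a3⟩ := fr_spec (D := D) a
      obtain ⟨b1, b2, b3⟩ := fr_spec (D := D) b
      have h := rK_eq (p := p) (a := a * b) (mul_ne_zero a1 b1) (mul_ne_zero a2 b2) (by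
        rw [Units.val_mul, map_mul, map_mul, ← a3, ← b3]
        ring)
      ext
      rw [h, Units.val_mul, p.ρ_mul _ _ a1 b1, p.ρ_mul _ _ a2 b2]
      unfold rK
      rw [Units.val_mk0, Units.val_mk0, div_mul_div_comm]
    pos := fun a b hab ha => by
      obtain ⟨x, y, hx, hy, hxy, h1, h2⟩ := com a b hab
      rw [vK_eq hx hxy h1] at ha
      rw [vK_eq hy hxy h2]
      have h3 : x + y + -x = y := by ring
      have h4 := p.lt (x + y) (-x) hxy (neg_ne_zero.2 hx) (by rw [h3]; exact hy)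
        (by rw [p.v_neg _ hx]; omega)
      rw [h3] at h4
      refine ⟨by omega, ?_⟩
      ext
      rw [rK_eq hy hxy h2, h4.2, Units.val_one, div_self (p.ne _ hxy)]
    zero := fun a b hab ha hb => by
      obtain ⟨x, y, hx, hy, hxy, h1, h2⟩ := com a b hab
      rw [vK_eq hx hxy h1] at ha
      rw [vK_eq hy hxy h2] at hb
      rw [rK_eq hx hxy h1, rK_eq hy hxy h2, ← add_div,
        p.eq x y hx hy hxy (by omega) (by omega), div_self (p.ne _ hxy)]
    neg := fun a b hab ha => by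
      obtain ⟨x, y, hx, hy, hxy, h1, h2⟩ := com a b hab
      rw [vK_eq hx hxy h1] at ha
      rw [vK_eq hy hxy h2, vK_eq hx hxy h1]
      have h3 : -x + (x + y) = y := by ring
      have h4 := p.lt (-x) (x + y) (neg_ne_zero.2 hx) hxy (by rw [h3]; exact hy)
        (by rw [p.v_neg _ hx]; omega)
      rw [h3, p.v_neg _ hx, p.ρ_neg _ hx] at h4
      refine ⟨by omega, ?_⟩
      ext
      rw [rK_eq hy hxy h2, Units.val_neg, rK_eq hx hxy h1, h4.2, neg_div] }

theorem ts_v {a : Kˣ} {x y : D} (hx : x ≠ 0) (hy : y ≠ 0)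
    (h : (a : K) * algebraMap D K y = algebraMap D K x) : (p.ts K).v a = p.v x - p.v y :=
  vK_eq hx hy h

theorem ts_ρ {a : Kˣ} {x y : D} (hx : x ≠ 0) (hy : y ≠ 0)
    (h : (a : K) * algebraMap D K y = algebraMap D K x) :
    ((p.ts K).ρ a : k) = p.ρ x / p.ρ y := rK_eq hx hy h

theorem v_one : p.v 1 = 0 := by
  have := p.v_mul 1 1 one_ne_zero one_ne_zero
  rw [mul_one] at this
  omega

theorem ρ_one : p.ρ 1 = 1 := by
  have h := p.ρ_mul 1 1 one_ne_zero one_ne_zero
  rw [mul_one] at h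
  have h1 := p.ne 1 one_ne_zero
  exact (mul_right_cancel₀ h1 (by rw [one_mul]; exact h.symm : p.ρ 1 * p.ρ 1 = 1 * p.ρ 1))

theorem ts_v' {a : Kˣ} {x : D} (hx : x ≠ 0) (h : (a : K) = algebraMap D K x) :
    (p.ts K).v a = p.v x := by
  rw [p.ts_v hx one_ne_zero (by rw [map_one, mul_one, h]), p.v_one, sub_zero]

theorem ts_ρ' {a : Kˣ} {x : D} (hx : x ≠ 0) (h : (a : K) = algebraMap D K x) :
    ((p.ts K).ρ a : k) = p.ρ x := by
  rw [p.ts_ρ hx one_ne_zero (by rw [map_one, mul_one, h]), p.ρ_one, div_one]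

end PV

/-! ### Prime elements -/

section Prime

variable {D : Type u} {k : Type v} [CommRing D] [IsDomain D] [Field k]

theorem exists_pow_mul {P x : D} (h : FiniteMultiplicity P x) :
    ∃ n : ℕ, ∃ c : D, x = P ^ n * c ∧ ¬ P ∣ c := by
  obtain ⟨c, h1, h2⟩ := h.exists_eq_pow_mul_and_not_dvd
  exact ⟨_, c, h1, h2⟩

theorem pow_mul_unique {P : D} (hP : Prime P) {m n : ℕ} {c d : D} (hc : ¬ P ∣ c) (hd : ¬ P ∣ d)
    (h : P ^ m * c = P ^ n * d) : m = n ∧ c = d := by
  have hP0 := hP.ne_zero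
  have aux : ∀ {m n : ℕ} {c d : D}, ¬ P ∣ c → P ^ m * c = P ^ n * d → n ≤ m := by
    intro m n c d hc h
    by_contra hlt
    push Not at hlt
    obtain ⟨l, rfl⟩ : ∃ l, n = m + (l + 1) := ⟨n - m - 1, by omega⟩
    rw [pow_add, mul_assoc] at h
    have h2 := mul_left_cancel₀ (pow_ne_zero m hP0) h
    apply hc
    rw [h2, pow_succ']
    exact ⟨P ^ l * d, by ring⟩
  have h1 := aux hc h
  have h2 := aux hd h.symm
  have h3 : m = n := le_antisymm h2 h1
  subst h3
  exact ⟨rfl, mul_left_cancel₀ (pow_ne_zero m hP0) h⟩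

/-- data of a prime element with residue field `k` -/
structure PrimeData (D : Type u) (k : Type v) [CommRing D] [Field k] where
  q : D →+* k
  P : D
  prime : Prime P
  ker : ∀ x, q x = 0 ↔ P ∣ x
  fin : ∀ x, x ≠ 0 → FiniteMultiplicity P x

variable (p : PrimeData D k)

namespace PrimeData

open Classical in
/-- the exponent -/
noncomputable def n (x : D) : ℕ :=
  if h : x = 0 then 0 else (exists_pow_mul (p.fin x h)).choose

open Classical in
/-- the cofactor -/
noncomputable def c (x : D) : D :=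
  if h : x = 0 then 0 else (exists_pow_mul (p.fin x h)).choose_spec.choose

theorem n_c {x : D} (h : x ≠ 0) : x = p.P ^ p.n x * p.c x ∧ ¬ p.P ∣ p.c x := by
  unfold n c
  rw [dif_neg h, dif_neg h]
  exact (exists_pow_mul (p.fin x h)).choose_spec.choose_spec

theorem ne_zero_of {n : ℕ} {c : D} (hc : ¬ p.P ∣ c) : p.P ^ n * c ≠ 0 := by
  refine mul_ne_zero (pow_ne_zero _ p.prime.ne_zero) ?_
  rintro rfl
  exact hc (dvd_zero _)

theorem n_eq {n : ℕ} {c : D} (hc : ¬ p.P ∣ c) : p.n (p.P ^ n * c) = n ∧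
    p.c (p.P ^ n * c) = c := by
  obtain ⟨h1, h2⟩ := p.n_c (p.ne_zero_of (n := n) hc)
  have := pow_mul_unique p.prime hc h2 h1
  exact ⟨this.1.symm, this.2.symm⟩

/-- valuation data of a prime element -/
noncomputable def pv : PV D k where
  v x := p.n x
  ρ x := p.q (p.c x)
  ne x hx := fun h => (p.n_c hx).2 ((p.ker _).1 h)
  v_mul x y hx hy := by
    obtain ⟨h1, h2⟩ := p.n_c hx
    obtain ⟨h3, h4⟩ := p.n_c hy
    have h5 : x * y = p.P ^ (p.n x + p.n y) * (p.c x * p.c y) := by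
      calc x * y = (p.P ^ p.n x * p.c x) * (p.P ^ p.n y * p.c y) := by rw [← h1, ← h3]
        _ = _ := by rw [pow_add]; ring
    have h6 := (p.n_eq (n := p.n x + p.n y) (c := p.c x * p.c y)
      (fun h => (p.prime.dvd_or_dvd h).elim h2 h4)).1
    rw [← h5] at h6
    rw [h6]
    push_cast
    ring
  ρ_mul x y hx hy := by
    obtain ⟨h1, h2⟩ := p.n_c hx
    obtain ⟨h3, h4⟩ := p.n_c hy
    have h5 : x * y = p.P ^ (p.n x + p.n y) * (p.c x * p.c y) := by
      calc x * y = (p.P ^ p.n x * p.c x) * (p.P ^ p.n y * p.c y) := by rw [← h1, ← h3]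
        _ = _ := by rw [pow_add]; ring
    have h6 := (p.n_eq (n := p.n x + p.n y) (c := p.c x * p.c y)
      (fun h => (p.prime.dvd_or_dvd h).elim h2 h4)).2
    rw [← h5] at h6
    rw [h6, map_mul]
  v_neg x hx := by
    obtain ⟨h1, h2⟩ := p.n_c hx
    have h6 := (p.n_eq (n := p.n x) (c := -p.c x) (by rwa [dvd_neg])).1
    rw [mul_neg, ← h1] at h6
    rw [h6]
  ρ_neg x hx := by
    obtain ⟨h1, h2⟩ := p.n_c hx
    have h6 := (p.n_eq (n := p.n x) (c := -p.c x) (by rwa [dvd_neg])).2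
    rw [mul_neg, ← h1] at h6
    rw [h6, map_neg]
  lt x y hx hy hxy h := by
    obtain ⟨h1, h2⟩ := p.n_c hx
    obtain ⟨h3, h4⟩ := p.n_c hy
    obtain ⟨l, hl⟩ : ∃ l, p.n y = p.n x + (l + 1) := ⟨p.n y - p.n x - 1, by omega⟩
    have h5 : x + y = p.P ^ p.n x * (p.c x + p.P ^ (l + 1) * p.c y) := by
      calc x + y = p.P ^ p.n x * p.c x + p.P ^ p.n y * p.c y := by rw [← h1, ← h3]
        _ = _ := by rw [hl, pow_add]; ring
    have h7 : p.q (p.c x + p.P ^ (l + 1) * p.c y) = p.q (p.c x) := by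
      have h8 : p.q p.P = 0 := (p.ker _).2 dvd_rfl
      rw [map_add, map_mul, map_pow, h8, pow_succ, mul_zero, zero_mul, add_zero]
    have h9 : ¬ p.P ∣ p.c x + p.P ^ (l + 1) * p.c y := by
      rw [← p.ker, h7, p.ker]
      exact h2
    have h10 := p.n_eq (n := p.n x) h9
    rw [← h5] at h10
    rw [h10.1, h10.2, h7]
    exact ⟨rfl, rfl⟩
  eq x y hx hy hxy h h' := by
    obtain ⟨h1, h2⟩ := p.n_c hx
    obtain ⟨h3, h4⟩ := p.n_c hy
    obtain ⟨h5, h6⟩ := p.n_c hxy
    have e1 : p.n x = p.n (x + y) := by exact_mod_cast h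
    have e2 : p.n y = p.n (x + y) := by exact_mod_cast h'
    have h7 : p.P ^ p.n (x + y) * p.c (x + y) = p.P ^ p.n (x + y) * (p.c x + p.c y) := by
      rw [← h5, mul_add]
      nth_rewrite 1 [← e1]
      rw [← e2, ← h1, ← h3]
    have h8 := mul_left_cancel₀ (pow_ne_zero _ p.prime.ne_zero) h7
    rw [h8, map_add]

theorem pv_v {n : ℕ} {c : D} (hc : ¬ p.P ∣ c) : p.pv.v (p.P ^ n * c) = n := by
  change ((p.n (p.P ^ n * c) : ℕ) : ℤ) = n
  rw [(p.n_eq hc).1]

theorem pv_ρ {n : ℕ} {c : D} (hc : ¬ p.P ∣ c) : p.pv.ρ (p.P ^ n * c) = p.q c := by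
  change p.q (p.c (p.P ^ n * c)) = p.q c
  rw [(p.n_eq hc).2]

theorem pv_v_unit {c : D} (hc : ¬ p.P ∣ c) : p.pv.v c = 0 := by
  have := p.pv_v (n := 0) hc
  rwa [pow_zero, one_mul] at this

theorem pv_ρ_unit {c : D} (hc : ¬ p.P ∣ c) : p.pv.ρ c = p.q c := by
  have := p.pv_ρ (n := 0) hc
  rwa [pow_zero, one_mul] at this

theorem pv_v_P : p.pv.v p.P = 1 := by
  have := p.pv_v (n := 1) (c := 1) p.prime.not_dvd_one
  rwa [pow_one, mul_one, Nat.cast_one] at this

theorem pv_ρ_P : p.pv.ρ p.P = 1 := by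
  have := p.pv_ρ (n := 1) (c := 1) p.prime.not_dvd_one
  rwa [pow_one, mul_one, map_one] at this

end PrimeData

end Prime

/-! ### The place at infinity -/

section Infinity

open Polynomial

variable (F : Type u) [Field F]

/-- the valuation data at infinity, with uniformizer `1 / X` -/
noncomputable def pvInf : PV F[X] F where
  v f := -(f.natDegree : ℤ)
  ρ f := f.leadingCoeff
  ne f hf := leadingCoeff_ne_zero.2 hf
  v_mul f g hf hg := by
    rw [natDegree_mul hf hg]
    push_cast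
    ring
  ρ_mul f g _ _ := leadingCoeff_mul f g
  v_neg f _ := by rw [natDegree_neg]
  ρ_neg f _ := leadingCoeff_neg f
  lt f g hf hg _ h := by
    have h1 : g.natDegree < f.natDegree := by omega
    have h2 : g.degree < f.degree := degree_lt_degree h1
    rw [natDegree_add_eq_left_of_natDegree_lt h1, leadingCoeff_add_of_degree_lt' h2]
    exact ⟨rfl, rfl⟩
  eq f g hf hg _ h h' := by
    have h1 : f.natDegree = (f + g).natDegree := by omega
    have h2 : g.natDegree = (f + g).natDegree := by omega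
    unfold leadingCoeff
    rw [h1, h2, coeff_add]

end Infinity

end Pool.Agent.H14.KM
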