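import Pool.Agent.H14.KM.Places

/-!
# Milnor K-theory: the filtration by the degree
-/

set_option autoImplicit false
set_option linter.unusedSectionVars false

open Polynomial

namespace Pool.Agent.H14.KM

universe u v w

variable {F : Type u} [Field F] {K : Type w} [Field K] [Algebra F[X] K] [IsFractionRing F[X] K]

theorem aM_ne {g : F[X]} (hg : g ≠ 0) : algebraMap F[X] K g ≠ 0 := fun h =>
  hg ((injective_iff_map_eq_zero _).1 (IsFractionRing.injective F[X] K) g h)

variable (K) in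
open Classical in
/-- the unit of a polynomial (`1` for the zero polynomial) -/
noncomputable def uP (g : F[X]) : Kˣ := if h : g = 0 then 1 else Units.mk0 _ (aM_ne (K := K) h)

theorem uP_val {g : F[X]} (hg : g ≠ 0) : (uP K g : K) = algebraMap F[X] K g := by
  unfold uP
  rw [dif_neg hg]
  rfl

theorem uP_mul {f g : F[X]} (hf : f ≠ 0) (hg : g ≠ 0) : uP K (f * g) = uP K f * uP K g := by
  ext
  rw [uP_val (mul_ne_zero hf hg), Units.val_mul, uP_val hf, uP_val hg, map_mul]

variable (K) in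
/-- the symbol of a polynomial -/
noncomputable def pl (g : F[X]) : KM K := sym (uP K g)

theorem pl_mul {f g : F[X]} (hf : f ≠ 0) (hg : g ≠ 0) : pl K (f * g) = pl K f + pl K g := by
  unfold pl
  rw [uP_mul hf hg, sym_mul]

theorem pl_comm (f g : F[X]) : pl K f * pl K g = -(pl K g * pl K f) := sym_anticomm _ _

theorem sym_frac (a : Kˣ) : ∃ f g : F[X], f ≠ 0 ∧ g ≠ 0 ∧ sym a = pl K f - pl K g ∧
    (a : K) * algebraMap F[X] K g = algebraMap F[X] K f := by
  obtain ⟨⟨f, g⟩, hf, hg, h⟩ := PV.exists_frac (D := F[X]) a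
  refine ⟨f, g, hf, hg, ?_, h⟩
  unfold pl
  rw [← sym_div]
  congr 1
  ext
  rw [Units.val_div_eq_div_val, uP_val hf, uP_val hg, eq_div_iff (aM_ne hg)]
  exact h

/-- Steinberg relation for polynomials -/
theorem pl_st {f g h : F[X]} (hf : f ≠ 0) (hg : g ≠ 0) (hh : h ≠ 0) (e : f + g = h) :
    (pl K f - pl K h) * (pl K g - pl K h) = 0 := by
  unfold pl
  rw [← sym_div, ← sym_div]
  apply sym_st
  rw [Units.val_div_eq_div_val, Units.val_div_eq_div_val, uP_val hf, uP_val hg, uP_val hh,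
    ← add_div, ← map_add, e, div_self (aM_ne hh)]

variable (K) in
/-- the subring generated by the polynomials of degree less than `d` -/
noncomputable def L (F : Type u) [Field F] [Algebra F[X] K] [IsFractionRing F[X] K] (d : ℕ) :
    Subring (KM K) :=
  Subring.closure {x | ∃ g : F[X], g ≠ 0 ∧ g.natDegree < d ∧ x = pl K g}

theorem pl_mem {g : F[X]} {d : ℕ} (hg : g ≠ 0) (h : g.natDegree < d) : pl K g ∈ L K F d :=
  Subring.subset_closure ⟨g, hg, h, rfl⟩

theorem L_mono {d e : ℕ} (h : d ≤ e) : L K F d ≤ L K F e := by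
  unfold L
  apply Subring.closure_mono
  rintro x ⟨g, h1, h2, h3⟩
  exact ⟨g, h1, lt_of_lt_of_le h2 h, h3⟩

/-- every element has a degree -/
theorem exists_mem_L (x : KM K) : ∃ d, 1 ≤ d ∧ x ∈ L K F d := by
  induction x using induction_on with
  | h1 => exact ⟨1, le_rfl, one_mem _⟩
  | h0 => exact ⟨1, le_rfl, zero_mem _⟩
  | hadd x y hx hy =>
    obtain ⟨d, h1, h2⟩ := hx
    obtain ⟨e, h3, h4⟩ := hy
    exact ⟨max d e, le_trans h1 (le_max_left _ _),
      add_mem (L_mono (le_max_left _ _) h2) (L_mono (le_max_right _ _) h4)⟩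
  | hneg x hx =>
    obtain ⟨d, h1, h2⟩ := hx
    exact ⟨d, h1, neg_mem h2⟩
  | hmul a y hy =>
    obtain ⟨d, h1, h2⟩ := hy
    obtain ⟨f, g, hf, hg, h3, -⟩ := sym_frac (F := F) a
    obtain ⟨e, he⟩ : ∃ e, e = max d (max (f.natDegree + 1) (g.natDegree + 1)) := ⟨_, rfl⟩
    refine ⟨e, by omega, ?_⟩
    rw [h3]
    refine mul_mem (sub_mem (pl_mem hf (by omega)) (pl_mem hg (by omega))) (L_mono (by omega) h2)

/-- left induction for the subring `L` -/
theorem L_induction {d : ℕ} {p : KM K → Prop} {x : KM K} (hx : x ∈ L K F d) (h1 : p 1) (h0 : p 0)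
    (hadd : ∀ x y, p x → p y → p (x + y)) (hneg : ∀ x, p x → p (-x))
    (hmul : ∀ (g : F[X]) y, g ≠ 0 → g.natDegree < d → y ∈ L K F d → p y → p (pl K g * y)) :
    p x := by
  have key : ∀ x ∈ L K F d, ∀ y ∈ L K F d, p y → p (x * y) := by
    intro x hx
    unfold L at hx
    induction hx using Subring.closure_induction with
    | mem x hx =>
      obtain ⟨g, hg, h, rfl⟩ := hx
      exact fun y hy hp => hmul g y hg h hy hp
    | zero => intro y _ _; rw [zero_mul]; exact h0
    | one => intro y _ hp; rw [one_mul]; exact hp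
    | add x y _ _ h1 h2 => intro z hz hp; rw [add_mul]; exact hadd _ _ (h1 z hz hp) (h2 z hz hp)
    | neg x _ h1 => intro z hz hp; rw [neg_mul]; exact hneg _ (h1 z hz hp)
    | mul x y hx hy h1 h2 =>
      intro z hz hp
      rw [mul_assoc]
      exact h1 _ (mul_mem hy hz) (h2 z hz hp)
  have := key x hx 1 (one_mem _) h1
  rwa [mul_one] at this

/-! ### The key lemma -/

section Key

variable {k : Type v} [Field k] (p : PrimeData F[X] k) (hq : Function.Surjective p.q)

theorem P_ne : p.P ≠ 0 := p.prime.ne_zero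

theorem P_deg : 0 < p.P.natDegree := by
  rw [Nat.pos_iff_ne_zero]
  intro h
  have h1 := eq_C_of_natDegree_eq_zero h
  have h2 : p.P.coeff 0 ≠ 0 := by
    intro h3
    rw [h3, C_0] at h1
    exact P_ne p h1
  apply p.prime.not_isUnit
  rw [h1]
  exact isUnit_C.2 (isUnit_iff_ne_zero.2 h2)

theorem not_dvd {g : F[X]} (hg : g ≠ 0) (h : g.natDegree < p.P.natDegree) : ¬ p.P ∣ g :=
  fun h1 => absurd (natDegree_le_of_dvd h1 hg) (not_le.2 h)

theorem exists_lift (hq : Function.Surjective p.q) (x : kˣ) : ∃ g : F[X], g ≠ 0 ∧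
    g.natDegree < p.P.natDegree ∧ p.q g = x := by
  obtain ⟨f, hf⟩ := hq x
  have hP : p.P ≠ 0 := P_ne p
  have h1 : p.q (f % p.P) = x := by
    rw [← hf]
    have h2 := EuclideanDomain.div_add_mod f p.P
    have h3 : p.q p.P = 0 := (p.ker _).2 dvd_rfl
    rw [← h2, map_add, map_mul, h3, zero_mul, zero_add]
    congr 1
    rw [h2]
  refine ⟨f % p.P, ?_, ?_, h1⟩
  · intro h2
    rw [h2, map_zero] at h1
    exact x.ne_zero h1.symm
  · have h2 : f % p.P ≠ 0 := by
      intro h2
      rw [h2, map_zero] at h1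
      exact x.ne_zero h1.symm
    exact natDegree_lt_natDegree h2 (degree_mod_lt f hP)

/-- the lift of a unit of the residue field -/
noncomputable def gL (x : kˣ) : F[X] := (exists_lift p hq x).choose

theorem gL_spec (x : kˣ) : gL p hq x ≠ 0 ∧ (gL p hq x).natDegree < p.P.natDegree ∧
    p.q (gL p hq x) = x := (exists_lift p hq x).choose_spec

theorem eq_of_q {f g : F[X]} (hf : f.natDegree < p.P.natDegree) (hg : g.natDegree < p.P.natDegree)
    (h : p.q f = p.q g) : f = g := by
  by_contra hne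
  have h1 : f - g ≠ 0 := sub_ne_zero.2 hne
  have h2 : p.P ∣ f - g := by
    rw [← p.ker, map_sub, h, sub_self]
  exact not_dvd p h1 (lt_of_le_of_lt (natDegree_sub_le f g) (max_lt hf hg)) h2

theorem gL_eq {g : F[X]} (h : g.natDegree < p.P.natDegree) {x : kˣ} (hx : p.q g = x) :
    gL p hq x = g :=
  eq_of_q p (gL_spec p hq x).2.1 h ((gL_spec p hq x).2.2.trans hx.symm)

theorem key_mul (x y : kˣ) : pl K p.P * (pl K (gL p hq (x * y)) - pl K (gL p hq x) -
    pl K (gL p hq y)) ∈ L K F p.P.natDegree := by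
  obtain ⟨x1, x2, x3⟩ := gL_spec p hq x
  obtain ⟨y1, y2, y3⟩ := gL_spec p hq y
  obtain ⟨z1, z2, z3⟩ := gL_spec p hq (x * y)
  generalize gL p hq x = f at *
  generalize gL p hq y = g at *
  generalize gL p hq (x * y) = h at *
  have hd : p.P ∣ f * g - h := by
    rw [← p.ker, map_sub, map_mul, x3, y3, z3, Units.val_mul, sub_self]
  obtain ⟨r, hr⟩ := hd
  have hfg : f * g ≠ 0 := mul_ne_zero x1 y1
  by_cases hr0 : r = 0
  · rw [hr0, mul_zero, sub_eq_zero] at hr
    rw [← hr, pl_mul x1 y1]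
    have : pl K f + pl K g - pl K f - pl K g = 0 := by abel
    rw [this, mul_zero]
    exact zero_mem _
  have hrd : r.natDegree < p.P.natDegree := by
    have h1 : (p.P * r).natDegree = p.P.natDegree + r.natDegree := natDegree_mul (P_ne p) hr0
    have h2 : (f * g - h).natDegree ≤ max (f * g).natDegree h.natDegree := natDegree_sub_le _ _
    have h3 : (f * g).natDegree = f.natDegree + g.natDegree := natDegree_mul x1 y1
    rw [hr, h1] at h2
    omega
  have h1 := pl_st (K := K) (mul_ne_zero (P_ne p) hr0) z1 hfg (by rw [← hr]; ring)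
  rw [pl_mul (P_ne p) hr0, pl_mul x1 y1] at h1
  have h2 : pl K p.P * (pl K h - pl K f - pl K g) =
      -((pl K r - pl K f - pl K g) * (pl K h - pl K f - pl K g)) := by
    have h3 : (pl K p.P + pl K r - (pl K f + pl K g)) * (pl K h - (pl K f + pl K g)) =
        pl K p.P * (pl K h - pl K f - pl K g) +
        (pl K r - pl K f - pl K g) * (pl K h - pl K f - pl K g) := by
      rw [← add_mul]
      congr 1
      · abel
      · abel
    rw [h3] at h1
    exact eq_neg_of_add_eq_zero_left h1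
  rw [h2]
  exact neg_mem (mul_mem (sub_mem (sub_mem (pl_mem hr0 hrd) (pl_mem x1 x2)) (pl_mem y1 y2))
    (sub_mem (sub_mem (pl_mem z1 z2) (pl_mem x1 x2)) (pl_mem y1 y2)))

variable (K) in
/-- the elements `z` of `L` such that `{P} z` is in `L` -/
noncomputable def NN : AddSubgroup (L K F p.P.natDegree) :=
  ((L K F p.P.natDegree).toAddSubgroup.comap (AddMonoidHom.mulLeft (pl K p.P))).comap
    (L K F p.P.natDegree).subtype.toAddMonoidHom

theorem mem_NN {z : L K F p.P.natDegree} :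
    z ∈ NN K p ↔ pl K p.P * (z : KM K) ∈ L K F p.P.natDegree := Iff.rfl

/-- the lift of a unit as an element of `L` -/
noncomputable def gE (K : Type w) [Field K] [Algebra F[X] K] [IsFractionRing F[X] K] (x : kˣ) :
    L K F p.P.natDegree :=
  ⟨pl K (gL p hq x), pl_mem (gL_spec p hq x).1 (gL_spec p hq x).2.1⟩

theorem gE_coe (x : kˣ) : (gE p hq K x : KM K) = pl K (gL p hq x) := rfl

/-- left multiplication on the quotient -/
noncomputable def opM (x : kˣ) : AddMonoid.End (L K F p.P.natDegree ⧸ NN K p) :=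
  QuotientAddGroup.map (NN K p) (NN K p) (AddMonoidHom.mulLeft (gE p hq K x)) (by
    intro z hz
    rw [AddSubgroup.mem_comap, mem_NN]
    change pl K p.P * (pl K (gL p hq x) * (z : KM K)) ∈ _
    rw [← mul_assoc, pl_comm, neg_mul, mul_assoc]
    exact neg_mem (mul_mem (pl_mem (gL_spec p hq x).1 (gL_spec p hq x).2.1) hz))

theorem opM_mk (x : kˣ) (z : L K F p.P.natDegree) :
    opM p hq x (QuotientAddGroup.mk z : L K F p.P.natDegree ⧸ NN K p) =
      QuotientAddGroup.mk (gE p hq K x * z) := rfl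

theorem mk_eq_mk {z z' : L K F p.P.natDegree}
    (h : pl K p.P * ((z : KM K) - z') ∈ L K F p.P.natDegree) :
    (QuotientAddGroup.mk z : L K F p.P.natDegree ⧸ NN K p) = QuotientAddGroup.mk z' := by
  rw [QuotientAddGroup.eq, mem_NN]
  have : ((-z + z' : L K F p.P.natDegree) : KM K) = -((z : KM K) - z') := by
    rw [Subring.coe_add, Subring.coe_neg]
    abel
  rw [this, mul_neg]
  exact neg_mem h

theorem opM_mul (x y : kˣ) : opM (K := K) p hq (x * y) = opM p hq x + opM p hq y := by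
  apply AddMonoidHom.ext
  intro z
  induction z using QuotientAddGroup.induction_on with
  | H z =>
    change opM (K := K) p hq (x * y) _ = opM (K := K) p hq x _ + opM (K := K) p hq y _
    rw [opM_mk, opM_mk, opM_mk, ← QuotientAddGroup.mk_add]
    apply mk_eq_mk
    have : ((gE p hq K (x * y) * z : L K F p.P.natDegree) : KM K) -
        ((gE p hq K x * z + gE p hq K y * z : L K F p.P.natDegree) : KM K) =
        (pl K (gL p hq (x * y)) - pl K (gL p hq x) - pl K (gL p hq y)) * z := by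
      rw [Subring.coe_add, Subring.coe_mul, Subring.coe_mul, Subring.coe_mul, gE_coe, gE_coe,
        gE_coe, sub_mul, sub_mul]
      abel
    rw [this, ← mul_assoc]
    exact mul_mem (key_mul p hq x y) z.2

theorem opM_st (x y : kˣ) (h : (x : k) + y = 1) : opM (K := K) p hq x * opM p hq y = 0 := by
  refine DFunLike.ext _ _ fun z => ?_
  induction z using QuotientAddGroup.induction_on with
  | H z =>
    have e0 : (opM (K := K) p hq x * opM (K := K) p hq y : AddMonoid.End _)
        (QuotientAddGroup.mk z) = opM (K := K) p hq x (opM (K := K) p hq y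
        (QuotientAddGroup.mk z)) := rfl
    rw [e0, AddMonoid.End.zero_apply, opM_mk, opM_mk]
    obtain ⟨x1, x2, x3⟩ := gL_spec p hq x
    obtain ⟨y1, y2, y3⟩ := gL_spec p hq y
    have e : gL p hq x + gL p hq y = 1 := by
      apply eq_of_q p (lt_of_le_of_lt (natDegree_add_le _ _) (max_lt x2 y2))
      · rw [natDegree_one]
        exact P_deg p
      · rw [map_add, x3, y3, h, map_one]
    have h1 := pl_st (K := K) x1 y1 one_ne_zero e
    have h2 : pl K (1 : F[X]) = 0 := by
      have := pl_mul (K := K) (one_ne_zero (α := F[X])) (one_ne_zero (α := F[X]))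
      rw [mul_one] at this
      simpa using this
    rw [h2, sub_zero, sub_zero] at h1
    have h3 : gE p hq K x * (gE p hq K y * z) = 0 := by
      apply Subtype.ext
      rw [Subring.coe_mul, Subring.coe_mul, gE_coe, gE_coe, ← mul_assoc, h1, zero_mul]
      rfl
    rw [h3]
    exact QuotientAddGroup.mk_zero _

/-- the action of the Milnor ring of the residue field -/
noncomputable def opR : KM k →+* AddMonoid.End (L K F p.P.natDegree ⧸ NN K p) :=
  lift (opM p hq) (opM_mul p hq) (opM_st p hq)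

theorem opR_sym_mul (x : kˣ) (y : KM k) (z : L K F p.P.natDegree ⧸ NN K p) :
    opR p hq (sym x * y) z = opM p hq x (opR p hq y z) := by
  rw [map_mul]
  change opR p hq (sym x) (opR p hq y z) = _
  unfold opR
  rw [lift_sym]

theorem ts_v_zero {g : F[X]} (hg : g ≠ 0) (h : g.natDegree < p.P.natDegree) :
    (p.pv.ts K).v (uP K g) = 0 := by
  rw [p.pv.ts_v' hg (uP_val hg), p.pv_v_unit (not_dvd p hg h)]

theorem ts_ρ_eq {g : F[X]} (hg : g ≠ 0) (h : g.natDegree < p.P.natDegree) :
    ((p.pv.ts K).ρ (uP K g) : k) = p.q g := by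
  rw [p.pv.ts_ρ' hg (uP_val hg), p.pv_ρ_unit (not_dvd p hg h)]

theorem opR_spec {z : KM K} (hz : z ∈ L K F p.P.natDegree) :
    ∃ h : z ∈ L K F p.P.natDegree, opR (K := K) p hq ((p.pv.ts K).spec z)
      (QuotientAddGroup.mk 1) = QuotientAddGroup.mk ⟨z, h⟩ := by
  refine L_induction (p := fun z => ∃ h : z ∈ L K F p.P.natDegree,
      opR (K := K) p hq ((p.pv.ts K).spec z)
      (QuotientAddGroup.mk 1) = QuotientAddGroup.mk ⟨z, h⟩) hz ?_ ?_ ?_ ?_ ?_
  · refine ⟨one_mem _, ?_⟩
    rw [map_one, map_one]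
    rfl
  · refine ⟨zero_mem _, ?_⟩
    rw [map_zero, map_zero]
    rfl
  · rintro x y ⟨hx, ex⟩ ⟨hy, ey⟩
    refine ⟨add_mem hx hy, ?_⟩
    rw [map_add, map_add]
    change opR p hq _ _ + opR p hq _ _ = _
    rw [ex, ey, ← QuotientAddGroup.mk_add]
    rfl
  · rintro x ⟨hx, ex⟩
    refine ⟨neg_mem hx, ?_⟩
    rw [map_neg, map_neg]
    change -(opR p hq _ _) = _
    rw [ex, ← QuotientAddGroup.mk_neg]
    rfl
  · rintro g y hg h hy ⟨_, ey⟩
    refine ⟨mul_mem (pl_mem hg h) hy, ?_⟩
    rw [map_mul]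
    have e1 : (p.pv.ts K).spec (pl K g) = sym ((p.pv.ts K).ρ (uP K g)) := TS.spec_sym _ _
    rw [e1, opR_sym_mul, ey, opM_mk]
    congr 1
    apply Subtype.ext
    rw [Subring.coe_mul, gE_coe, gL_eq p hq h (ts_ρ_eq p hg h).symm]

/-- the key lemma: elements of `L` with trivial specialization -/
theorem key_L {z : KM K} (hz : z ∈ L K F p.P.natDegree) (h0 : (p.pv.ts K).spec z = 0)
    (hq : Function.Surjective p.q) : pl K p.P * z ∈ L K F p.P.natDegree := by
  obtain ⟨h1, h2⟩ := opR_spec p hq hz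
  rw [h0, map_zero] at h2
  have h3 : (QuotientAddGroup.mk (0 : L K F p.P.natDegree) : L K F p.P.natDegree ⧸ NN K p) =
      QuotientAddGroup.mk ⟨z, h1⟩ := h2
  rw [QuotientAddGroup.eq, mem_NN] at h3
  simpa using h3

/-- lifting elements of the Milnor ring of the residue field -/
theorem exists_spec (hq : Function.Surjective p.q) {n : ℕ} {y : KM k} (hy : y ∈ gr k n) :
    ∃ z ∈ L K F p.P.natDegree, z ∈ gr K n ∧ (p.pv.ts K).spec z = y := by
  refine gr_induction (p := fun y => ∃ z ∈ L K F p.P.natDegree, z ∈ gr K n ∧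
    (p.pv.ts K).spec z = y) hy ?_ ?_ ?_ ?_
  · exact ⟨0, zero_mem _, zero_mem _, map_zero _⟩
  · rintro x y ⟨z, h1, h2, rfl⟩ ⟨w, h3, h4, rfl⟩
    exact ⟨z + w, add_mem h1 h3, add_mem h2 h4, map_add _ _ _⟩
  · rintro x ⟨z, h1, h2, rfl⟩
    exact ⟨-z, neg_mem h1, neg_mem h2, map_neg _ _⟩
  · intro l
    clear hy
    induction l generalizing n with
    | nil =>
      rintro rfl
      exact ⟨1, one_mem _, by simpa using one_mem_gr (R := K), by simp⟩
    | cons a l ih =>
      rintro rfl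
      obtain ⟨z, h1, h2, h3⟩ := ih (n := l.length) rfl
      obtain ⟨g1, g2, g3⟩ := gL_spec p hq a
      refine ⟨pl K (gL p hq a) * z, mul_mem (pl_mem g1 g2) h1, sym_mul_mem_gr _ h2, ?_⟩
      rw [map_mul, h3, List.map_cons, List.prod_cons]
      congr 1
      have e1 : (p.pv.ts K).spec (pl K (gL p hq a)) = sym ((p.pv.ts K).ρ (uP K (gL p hq a))) :=
        TS.spec_sym _ _
      rw [e1]
      congr 1
      ext
      rw [ts_ρ_eq p g1 g2, g3]

theorem tame_L {d : ℕ} (hd : d ≤ p.P.natDegree) {z : KM K} (hz : z ∈ L K F d) :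
    (p.pv.ts K).tame z = 0 := by
  refine TS.tame_eq_zero (s := {a : Kˣ | (p.pv.ts K).v a = 0}) _ (fun a ha => ha) ?_
  unfold L at hz
  refine Subring.closure_mono ?_ hz
  rintro _ ⟨g, hg, h, rfl⟩
  exact ⟨uP K g, ts_v_zero p hg (lt_of_lt_of_le h hd), rfl⟩

theorem uP_P_v : (p.pv.ts K).v (uP K p.P) = 1 := by
  rw [p.pv.ts_v' (P_ne p) (uP_val (P_ne p)), p.pv_v_P]

theorem uP_P_ρ : (p.pv.ts K).ρ (uP K p.P) = 1 := by
  ext
  rw [p.pv.ts_ρ' (P_ne p) (uP_val (P_ne p)), p.pv_ρ_P, Units.val_one]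

theorem tame_P_mul {z : KM K} (hz : z ∈ L K F p.P.natDegree) :
    (p.pv.ts K).tame (pl K p.P * z) = (p.pv.ts K).spec z := by
  have := TS.tame_sym_mul (p.pv.ts K) (uP K p.P) z
  rw [uP_P_v, uP_P_ρ, sym_one, tame_L p le_rfl hz] at this
  rw [mul_zero, add_zero, one_smul, mul_zero, sub_zero] at this
  exact this

theorem tame_Q_mul {Q : F[X]} (hQ0 : Q ≠ 0) (hQ : ¬ p.P ∣ Q) {d : ℕ} (hd : d ≤ p.P.natDegree)
    {z : KM K} (hz : z ∈ L K F d) : (p.pv.ts K).tame (pl K Q * z) = 0 := by
  have h1 : (p.pv.ts K).v (uP K Q) = 0 := by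
    rw [p.pv.ts_v' hQ0 (uP_val hQ0), p.pv_v_unit hQ]
  have := TS.tame_sym_mul_of_zero (p.pv.ts K) h1 z
  rw [tame_L p hd hz, mul_zero, neg_zero] at this
  exact this

end Key

end Pool.Agent.H14.KM
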