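import Pool.Agent.H14.KM.Seq

/-!
# Milnor K-theory: Milnor's exact sequence for `F(X)`
-/

set_option autoImplicit false
set_option linter.unusedSectionVars false

open Polynomial

namespace Pool.Agent.H14.KM

universe u v w z

/-- monic irreducible polynomials -/
structure MIP (F : Type u) [Field F] where
  Q : F[X]
  monic : Q.Monic
  irr : Irreducible Q

variable {F : Type u} [Field F]

namespace MIP

/-- the residue field -/
abbrev k (Q : MIP F) : Type u := AdjoinRoot Q.Q

noncomputable instance (Q : MIP F) : Field Q.k := @AdjoinRoot.instField _ _ _ ⟨Q.irr⟩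

/-- the place -/
noncomputable def pd (Q : MIP F) : PrimeData F[X] Q.k where
  q := AdjoinRoot.mk Q.Q
  P := Q.Q
  prime := Q.irr.prime
  ker _ := AdjoinRoot.mk_eq_zero
  fin _ hx := FiniteMultiplicity.of_not_isUnit Q.irr.not_isUnit hx

theorem pd_P (Q : MIP F) : Q.pd.P = Q.Q := rfl

theorem pd_surj (Q : MIP F) : Function.Surjective Q.pd.q := AdjoinRoot.mk_surjective

theorem ext' {Q R : MIP F} (h : Q.Q = R.Q) : Q = R := by
  cases Q
  cases R
  congr

end MIP

variable (K : Type w) [Field K] [Algebra F[X] K] [IsFractionRing F[X] K]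

/-- the tame symbol at a monic irreducible polynomial -/
noncomputable def tQ (Q : MIP F) : KM K →+ KM Q.k := (Q.pd.pv.ts K).tame

variable {K}

/-! ### Generation -/

/-- decomposition of an element of degree `d` -/
def Dec (d : ℕ) (c : KM K) : Prop := ∃ z0 ∈ L K F d, ∃ f : F[X] →₀ KM K,
  (∀ Q ∈ f.support, Q.Monic ∧ Irreducible Q ∧ Q.natDegree = d) ∧ (∀ Q, f Q ∈ L K F d) ∧
  c = z0 + f.sum fun Q z => pl K Q * z

theorem sum_add (f g : F[X] →₀ KM K) : (f + g).sum (fun Q z => pl K Q * z) =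
    (f.sum fun Q z => pl K Q * z) + g.sum fun Q z => pl K Q * z :=
  Finsupp.sum_add_index' (fun _ => mul_zero _) fun _ _ _ => mul_add _ _ _

theorem Dec.zero (d : ℕ) : Dec (F := F) d (0 : KM K) :=
  ⟨0, zero_mem _, 0, by simp, by simp [zero_mem], by simp⟩

theorem Dec.of_L {d : ℕ} {z : KM K} (hz : z ∈ L K F d) : Dec (F := F) d z :=
  ⟨z, hz, 0, by simp, by simp [zero_mem], by simp⟩

theorem Dec.add {d : ℕ} {x y : KM K} (hx : Dec (F := F) d x) (hy : Dec (F := F) d y) :
    Dec (F := F) d (x + y) := by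
  classical
  obtain ⟨z0, h1, f, h2, h3, rfl⟩ := hx
  obtain ⟨w0, h4, g, h5, h6, rfl⟩ := hy
  refine ⟨z0 + w0, add_mem h1 h4, f + g, ?_, ?_, ?_⟩
  · intro Q hQ
    rcases Finset.mem_union.1 (Finsupp.support_add hQ) with h | h
    · exact h2 Q h
    · exact h5 Q h
  · intro Q
    rw [Finsupp.add_apply]
    exact add_mem (h3 Q) (h6 Q)
  · rw [sum_add]
    abel

theorem Dec.neg {d : ℕ} {x : KM K} (hx : Dec (F := F) d x) : Dec (F := F) d (-x) := by
  obtain ⟨z0, h1, f, h2, h3, rfl⟩ := hx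
  refine ⟨-z0, neg_mem h1, -f, ?_, ?_, ?_⟩
  · intro Q hQ
    rw [Finsupp.support_neg] at hQ
    exact h2 Q hQ
  · intro Q
    rw [Finsupp.neg_apply]
    exact neg_mem (h3 Q)
  · rw [Finsupp.sum_neg_index (fun _ => mul_zero _)]
    have e : (f.sum fun a b => pl K a * -b) = -(f.sum fun Q z => pl K Q * z) := by
      rw [Finsupp.sum, Finsupp.sum, ← Finset.sum_neg_distrib]
      exact Finset.sum_congr rfl fun a _ => mul_neg _ _
    rw [e, neg_add]

theorem Dec.single {d : ℕ} {Q : F[X]} (h1 : Q.Monic) (h2 : Irreducible Q) (h3 : Q.natDegree = d)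
    {z : KM K} (hz : z ∈ L K F d) : Dec (F := F) d (pl K Q * z) := by
  classical
  refine ⟨0, zero_mem _, Finsupp.single Q z, ?_, ?_, ?_⟩
  · intro R hR
    have := Finset.mem_singleton.1 (Finsupp.support_single_subset hR)
    rw [this]
    exact ⟨h1, h2, h3⟩
  · intro R
    rw [Finsupp.single_apply]
    split_ifs
    · exact hz
    · exact zero_mem _
  · rw [Finsupp.sum_single_index (mul_zero _), zero_add]

theorem Dec.sum {d : ℕ} {ι : Type*} (s : Finset ι) {x : ι → KM K}
    (h : ∀ i ∈ s, Dec (F := F) d (x i)) : Dec (F := F) d (∑ i ∈ s, x i) := by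
  classical
  induction s using Finset.induction_on with
  | empty => simpa using Dec.zero d
  | insert a s ha ih =>
    rw [Finset.sum_insert ha]
    exact (h a (Finset.mem_insert_self a s)).add
      (ih fun i hi => h i (Finset.mem_insert_of_mem hi))

/-- multiplication by a polynomial of small degree -/
theorem Dec.mul_small {d : ℕ} {g : F[X]} (hg : g ≠ 0) (hd : g.natDegree < d) {y : KM K}
    (hy : Dec (F := F) d y) : Dec (F := F) d (pl K g * y) := by
  obtain ⟨z0, h1, f, h2, h3, rfl⟩ := hy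
  rw [mul_add]
  refine (Dec.of_L (mul_mem (pl_mem hg hd) h1)).add ?_
  rw [Finsupp.sum, Finset.mul_sum]
  refine Dec.sum _ fun Q hQ => ?_
  rw [← mul_assoc, pl_comm, neg_mul, mul_assoc]
  obtain ⟨q1, q2, q3⟩ := h2 Q hQ
  exact (Dec.single q1 q2 q3 (mul_mem (pl_mem hg hd) (h3 Q))).neg

theorem sym_neg_one_pl : sym (-1 : Kˣ) = pl K (-1 : F[X]) := by
  unfold pl
  congr 1
  ext
  rw [uP_val (neg_ne_zero.2 one_ne_zero), Units.val_neg, Units.val_one, map_neg, map_one]

/-- multiplication by a monic irreducible polynomial of degree `d` -/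
theorem Dec.mul_irr {d : ℕ} (hd : 1 ≤ d) {R : F[X]} (h1 : R.Monic) (h2 : Irreducible R)
    (h3 : R.natDegree = d) {y : KM K} (hy : Dec (F := F) d y) : Dec (F := F) d (pl K R * y) := by
  obtain ⟨z0, k1, f, k2, k3, rfl⟩ := hy
  rw [mul_add]
  refine (Dec.single h1 h2 h3 k1).add ?_
  rw [Finsupp.sum, Finset.mul_sum]
  refine Dec.sum _ fun Q hQ => ?_
  obtain ⟨q1, q2, q3⟩ := k2 Q hQ
  have hm1 : pl K (-1 : F[X]) ∈ L K F d :=
    pl_mem (neg_ne_zero.2 one_ne_zero) (by rw [natDegree_neg, natDegree_one]; omega)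
  have hself : pl K R * pl K R = pl K R * pl K (-1 : F[X]) := by
    rw [← sym_neg_one_pl]
    exact sym_self _
  by_cases hQR : Q = R
  · subst hQR
    rw [← mul_assoc, hself, mul_assoc]
    exact Dec.single q1 q2 q3 (mul_mem hm1 (k3 Q))
  have hne : R - Q ≠ 0 := sub_ne_zero.2 fun h => hQR h.symm
  have hdeg : (R - Q).natDegree < d := by
    have h4 : (R - Q).degree < R.degree := degree_sub_lt_left (by
      rw [degree_eq_natDegree h1.ne_zero, degree_eq_natDegree q1.ne_zero, h3, q3]) h1.ne_zero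
      (by rw [h1.leadingCoeff, q1.leadingCoeff])
    have h5 := natDegree_lt_natDegree hne h4
    rwa [h3] at h5
  have h6 := pl_st (K := K) q1.ne_zero hne h1.ne_zero (by ring)
  have h7 : pl K R * pl K Q = -(pl K Q * pl K (R - Q)) + pl K R * pl K (R - Q) -
      pl K R * pl K (-1 : F[X]) := by
    rw [← hself]
    simp only [mul_sub, sub_mul] at h6
    rw [pl_comm R Q]
    have h8 : pl K Q * pl K R = (pl K Q * pl K (R - Q) - pl K R * pl K (R - Q) +
        pl K R * pl K R) - (pl K Q * pl K (R - Q) - pl K R * pl K (R - Q) -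
        (pl K Q * pl K R - pl K R * pl K R)) := by abel
    rw [h8, h6]
    abel
  rw [← mul_assoc, h7, sub_mul, add_mul, neg_mul, mul_assoc, mul_assoc, mul_assoc, sub_eq_add_neg]
  refine ((Dec.single q1 q2 q3 (mul_mem (pl_mem hne hdeg) (k3 Q))).neg.add
    (Dec.single h1 h2 h3 (mul_mem (pl_mem hne hdeg) (k3 Q)))).add
    (Dec.single h1 h2 h3 (mul_mem hm1 (k3 Q))).neg

theorem dec_of_mem {d : ℕ} (hd : 1 ≤ d) {c : KM K} (hc : c ∈ L K F (d + 1)) :
    Dec (F := F) d c := by
  refine L_induction (p := Dec (F := F) d) hc (Dec.of_L (one_mem _)) (Dec.zero d)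
    (fun _ _ => Dec.add) (fun _ => Dec.neg) ?_
  intro g y hg hgd _ hy
  by_cases h : g.natDegree < d
  · exact hy.mul_small hg h
  have hgd' : g.natDegree = d := by omega
  by_cases hirr : Irreducible g
  · -- irreducible: a constant times a monic polynomial
    have hl : g.leadingCoeff ≠ 0 := leadingCoeff_ne_zero.2 hg
    have hl' : g.leadingCoeff⁻¹ ≠ 0 := inv_ne_zero hl
    obtain ⟨R, hR⟩ : ∃ R, R = C g.leadingCoeff⁻¹ * g := ⟨_, rfl⟩
    have e1 : g = C g.leadingCoeff * R := by
      rw [hR, ← mul_assoc, ← C_mul, mul_inv_cancel₀ hl, C_1, one_mul]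
    have hR1 : R.Monic := by
      rw [hR, mul_comm]
      exact monic_mul_leadingCoeff_inv hg
    have hR2 : Irreducible R := by
      rw [hR]
      exact (irreducible_isUnit_mul (isUnit_C.2 (isUnit_iff_ne_zero.2 hl'))).2 hirr
    have hR3 : R.natDegree = d := by
      rw [hR, natDegree_C_mul hl', hgd']
    have e2 : pl K g = pl K (C g.leadingCoeff) + pl K R := by
      nth_rewrite 1 [e1]
      exact pl_mul (C_ne_zero.2 hl) hR1.ne_zero
    rw [e2, add_mul]
    exact (hy.mul_small (C_ne_zero.2 hl) (by rw [natDegree_C]; omega)).add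
      (hy.mul_irr hd hR1 hR2 hR3)
  · have hnu : ¬ IsUnit g := by
      intro h1
      have := natDegree_eq_zero_of_isUnit h1
      omega
    have : ∃ a b : F[X], g = a * b ∧ ¬ IsUnit a ∧ ¬ IsUnit b := by
      by_contra hcon
      push Not at hcon
      apply hirr
      refine ⟨hnu, ?_⟩
      intro a b hab
      by_contra hh
      push Not at hh
      exact hh.2 (hcon a b hab hh.1)
    obtain ⟨a, b, rfl, ha, hb⟩ := this
    have ha0 : a ≠ 0 := left_ne_zero_of_mul hg
    have hb0 : b ≠ 0 := right_ne_zero_of_mul hg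
    have h1 : (a * b).natDegree = a.natDegree + b.natDegree := natDegree_mul ha0 hb0
    have ha1 : a.natDegree ≠ 0 := by
      intro h2
      apply ha
      rw [eq_C_of_natDegree_eq_zero h2]
      refine isUnit_C.2 (isUnit_iff_ne_zero.2 ?_)
      intro h3
      apply ha0
      rw [eq_C_of_natDegree_eq_zero h2, h3, C_0]
    have hb1 : b.natDegree ≠ 0 := by
      intro h2
      apply hb
      rw [eq_C_of_natDegree_eq_zero h2]
      refine isUnit_C.2 (isUnit_iff_ne_zero.2 ?_)
      intro h3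
      apply hb0
      rw [eq_C_of_natDegree_eq_zero h2, h3, C_0]
    rw [pl_mul ha0 hb0, add_mul]
    exact (hy.mul_small ha0 (by omega)).add (hy.mul_small hb0 (by omega))

/-! ### Exactness -/

theorem not_dvd_of_ne {Q R : F[X]} (h1 : Q.Monic) (h2 : Irreducible Q) (h3 : R.Monic)
    (h4 : Irreducible R) (h : R ≠ Q) : ¬ Q ∣ R := by
  intro hd
  exact h (eq_of_monic_of_associated h3 h1 (h2.associated_of_dvd h4 hd).symm)

theorem step_L {d : ℕ} {c : KM K} (hc : Dec (F := F) d c)
    (h : ∀ Q : MIP F, Q.Q.natDegree = d → tQ K Q c = 0) : c ∈ L K F d := by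
  classical
  obtain ⟨z0, h1, f, h2, h3, rfl⟩ := hc
  refine add_mem h1 ?_
  rw [Finsupp.sum]
  refine sum_mem fun Q hQ => ?_
  obtain ⟨q1, q2, q3⟩ := h2 Q hQ
  obtain ⟨R, hR⟩ : ∃ R : MIP F, R.Q = Q := ⟨⟨Q, q1, q2⟩, rfl⟩
  have hRd : R.pd.P.natDegree = d := by rw [MIP.pd_P, hR, q3]
  have h4 := h R (by rw [hR, q3])
  unfold tQ at h4
  rw [map_add, tame_L R.pd hRd.ge h1, zero_add, Finsupp.sum, map_sum,
    Finset.sum_eq_single Q ?_ (fun h5 => absurd hQ h5)] at h4
  · have h5 : f Q ∈ L K F R.pd.P.natDegree := by rw [hRd]; exact h3 Q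
    have h6 : pl K Q = pl K R.pd.P := by rw [MIP.pd_P, hR]
    rw [h6, tame_P_mul R.pd h5] at h4
    have h7 := key_L R.pd h5 h4 R.pd_surj
    rw [h6]
    rw [hRd] at h7
    exact h7
  · intro Q' hQ' hne
    obtain ⟨r1, r2, r3⟩ := h2 Q' hQ'
    refine tame_Q_mul R.pd r1.ne_zero ?_ hRd.ge (h3 Q')
    rw [MIP.pd_P, hR]
    exact not_dvd_of_ne q1 q2 r1 r2 hne

theorem exact_L {c : KM K} (h : ∀ Q : MIP F, tQ K Q c = 0) : c ∈ L K F 1 := by
  obtain ⟨d, hd, hc⟩ := exists_mem_L (F := F) c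
  induction d, hd using Nat.le_induction with
  | base => exact hc
  | succ d hd ih => exact ih (step_L (dec_of_mem hd hc) fun Q _ => h Q)

variable (F K) in
/-- the embedding of the constants -/
noncomputable def jC : F →+* K := (algebraMap F[X] K).comp C

theorem exists_map {c : KM K} (hc : c ∈ L K F 1) : ∃ y : KM F, map (jC F K) y = c := by
  unfold L at hc
  have : Subring.closure {x | ∃ g : F[X], g ≠ 0 ∧ g.natDegree < 1 ∧ x = pl K g} ≤
      (map (jC F K)).range := by
    rw [Subring.closure_le]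
    rintro _ ⟨g, hg, hd, rfl⟩
    have hg0 : g.natDegree = 0 := by omega
    have e := eq_C_of_natDegree_eq_zero hg0
    have hc0 : g.coeff 0 ≠ 0 := by
      intro h
      apply hg
      rw [e, h, C_0]
    refine ⟨sym (Units.mk0 _ hc0), ?_⟩
    rw [map_sym]
    unfold pl
    congr 1
    ext
    rw [uP_val hg]
    nth_rewrite 2 [e]
    rfl
  exact this hc

/-! ### Finiteness and surjectivity -/

theorem finite_v (a : Kˣ) : {Q : MIP F | (Q.pd.pv.ts K).v a ≠ 0}.Finite := by
  classical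
  obtain ⟨⟨x, y⟩, hx, hy, h⟩ := PV.exists_frac (D := F[X]) a
  simp only at hx hy h
  have fin : ∀ g : F[X], g ≠ 0 → {Q : MIP F | Q.Q ∣ g}.Finite := by
    intro g hg
    have hsub : {Q : MIP F | Q.Q ∣ g} ⊆
        (fun Q : MIP F => Q.Q) ⁻¹' {R | R ∈ UniqueFactorizationMonoid.normalizedFactors g} := by
      intro Q hQ
      obtain ⟨R, hR, hQR⟩ := UniqueFactorizationMonoid.exists_mem_normalizedFactors_of_dvd hg
        Q.irr hQ
      have h1 := UniqueFactorizationMonoid.normalize_normalized_factor R hR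
      have h2 : R.Monic := by
        rw [← h1]
        exact monic_normalize
          (UniqueFactorizationMonoid.irreducible_of_normalized_factor R hR).ne_zero
      have h3 : Q.Q = R := eq_of_monic_of_associated Q.monic h2 hQR
      change Q.Q ∈ {R | R ∈ UniqueFactorizationMonoid.normalizedFactors g}
      rw [h3]
      exact hR
    refine Set.Finite.subset (Set.Finite.preimage ?_ ?_) hsub
    · intro Q _ R _ hh
      exact MIP.ext' hh
    · refine Set.Finite.subset
        (UniqueFactorizationMonoid.normalizedFactors g).toFinset.finite_toSet fun R hR => ?_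
      exact Multiset.mem_toFinset.2 hR
  refine Set.Finite.subset ((fin x hx).union (fin y hy)) ?_
  intro Q hQ
  by_contra hcon
  rw [Set.mem_union] at hcon
  push Not at hcon
  apply hQ
  rw [Q.pd.pv.ts_v hx hy h, Q.pd.pv_v_unit hcon.1, Q.pd.pv_v_unit hcon.2, sub_zero]

theorem finite_tQ (c : KM K) : {Q : MIP F | tQ K Q c ≠ 0}.Finite := by
  induction c using induction_on with
  | h1 =>
    have : {Q : MIP F | tQ K Q 1 ≠ 0} = ∅ := by
      ext Q
      simp [tQ, TS.tame_one]
    rw [this]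
    exact Set.finite_empty
  | h0 => simp
  | hadd x y hx hy =>
    refine (hx.union hy).subset fun Q hQ => ?_
    by_contra hcon
    rw [Set.mem_union] at hcon
    push Not at hcon
    apply hQ
    have h1 : tQ K Q x = 0 := by simpa using hcon.1
    have h2 : tQ K Q y = 0 := by simpa using hcon.2
    rw [map_add, h1, h2, add_zero]
  | hneg x hx =>
    refine hx.subset fun Q hQ => ?_
    simpa using hQ
  | hmul a y hy =>
    refine ((finite_v a).union hy).subset fun Q hQ => ?_
    by_contra hcon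
    rw [Set.mem_union] at hcon
    push Not at hcon
    apply hQ
    have h1 : (Q.pd.pv.ts K).v a = 0 := by simpa using hcon.1
    have h2 : (Q.pd.pv.ts K).tame y = 0 := by simpa [tQ] using hcon.2
    unfold tQ
    rw [TS.tame_sym_mul_of_zero _ h1, h2, mul_zero, neg_zero]

/-- correction by elements with prescribed tame symbols of small degree -/
theorem correct {N : ℕ} {n : ℕ} (IH : ∀ Q : MIP F, Q.Q.natDegree < N → ∀ y ∈ gr Q.k n,
    ∃ c ∈ gr K (n + 1), tQ K Q c = y ∧ ∀ R : MIP F, R ≠ Q → tQ K R c = 0) {c0 : KM K}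
    (h0 : c0 ∈ gr K (n + 1)) : ∃ c ∈ gr K (n + 1),
    (∀ Q : MIP F, Q.Q.natDegree < N → tQ K Q c = tQ K Q c0) ∧
    ∀ Q : MIP F, N ≤ Q.Q.natDegree → tQ K Q c = 0 := by
  classical
  have hf : {Q : MIP F | tQ K Q c0 ≠ 0 ∧ Q.Q.natDegree < N}.Finite :=
    (finite_tQ c0).subset fun Q hQ => hQ.1
  have hc : ∀ Q : MIP F, Q.Q.natDegree < N → ∃ c ∈ gr K (n + 1), tQ K Q c = tQ K Q c0 ∧
      ∀ R : MIP F, R ≠ Q → tQ K R c = 0 := fun Q hQ =>
    IH Q hQ _ (TS.tame_mem_gr _ h0)
  choose! c hc1 hc2 using hc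
  refine ⟨∑ Q ∈ hf.toFinset, c Q, ?_, ?_, ?_⟩
  · exact sum_mem fun Q hQ => (hc1 Q ((Set.Finite.mem_toFinset _).1 hQ).2)
  · intro Q hQ
    rw [map_sum]
    by_cases hQ0 : tQ K Q c0 = 0
    · rw [hQ0]
      refine Finset.sum_eq_zero fun R hR => ?_
      have hR' := (Set.Finite.mem_toFinset _).1 hR
      refine (hc2 R hR'.2).2 Q ?_
      rintro rfl
      exact hR'.1 hQ0
    · rw [Finset.sum_eq_single Q ?_ ?_]
      · exact (hc2 Q hQ).1
      · intro R hR hne
        have hR' := (Set.Finite.mem_toFinset _).1 hR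
        exact (hc2 R hR'.2).2 Q hne.symm
      · intro h
        exact absurd (hf.mem_toFinset.2 ⟨hQ0, hQ⟩) h
  · intro Q hQ
    rw [map_sum]
    refine Finset.sum_eq_zero fun R hR => ?_
    have hR' := (Set.Finite.mem_toFinset _).1 hR
    refine (hc2 R hR'.2).2 Q ?_
    rintro rfl
    exact absurd hR'.2 (not_lt.2 hQ)

/-- surjectivity -/
theorem exists_tQ (n : ℕ) (N : ℕ) : ∀ Q : MIP F, Q.Q.natDegree < N → ∀ y ∈ gr Q.k n,
    ∃ c ∈ gr K (n + 1), tQ K Q c = y ∧ ∀ R : MIP F, R ≠ Q → tQ K R c = 0 := by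
  induction N with
  | zero => intro Q hQ; omega
  | succ N ih =>
    intro Q hQ y hy
    by_cases hQN : Q.Q.natDegree < N
    · exact ih Q hQN y hy
    have hQN' : Q.Q.natDegree = N := by omega
    obtain ⟨z, z1, z2, z3⟩ := exists_spec (K := K) Q.pd Q.pd_surj hy
    have h0 : pl K Q.Q * z ∈ gr K (n + 1) := sym_mul_mem_gr _ z2
    obtain ⟨c, c1, c2, c3⟩ := correct ih h0
    refine ⟨pl K Q.Q * z - c, sub_mem h0 c1, ?_, ?_⟩
    · rw [map_sub, c3 Q hQN'.ge, sub_zero]
      exact (tame_P_mul Q.pd z1).trans z3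
    · intro R hR
      rw [map_sub]
      rcases lt_or_ge R.Q.natDegree N with h | h
      · rw [c2 R h, sub_self]
      · rw [c3 R h, sub_zero]
        refine tame_Q_mul R.pd Q.monic.ne_zero ?_ (d := Q.Q.natDegree) ?_ z1
        · rw [MIP.pd_P]
          exact not_dvd_of_ne R.monic R.irr Q.monic Q.irr fun h1 => hR (MIP.ext' h1.symm)
        · rw [MIP.pd_P]
          omega

end Pool.Agent.H14.KM
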