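import Pool.Agent.H14.KM.TA

/-!
# Milnor K-theory: the norm of a finite extension in degree zero
-/

set_option autoImplicit false

open Polynomial

namespace Pool.Agent.H14.KM

open Pool.Agent.H62
open Pool.Agent.H62.MK (MilnorK cup one0 DV polyNorm simpleNorm towerNorm)

universe u v

theorem map_one0 {R : Type u} {S : Type v} [CommRing R] [CommRing S] (f : R →+* S) :
    MK.map f 0 (one0 : MilnorK R 0) = one0 := by
  unfold one0
  rw [MK.map_sym]
  congr 1
  funext i
  exact i.elim0

theorem simple_deg {F E : Type u} [Field F] [Field E] [Algebra F E] (x : E) (h : IsIntegral F x) :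
    simpleNorm F x 0 one0 = Module.finrank F (IntermediateField.adjoin F {x}) • one0 := by
  unfold simpleNorm
  rw [dif_pos h, AddMonoidHom.comp_apply, map_one0]
  have : Fact (Irreducible (minpoly F x)) := ⟨minpoly.irreducible h⟩
  rw [IntermediateField.adjoin.finrank h]
  exact pf_DEG F (minpoly F x) (minpoly.monic h)

theorem tower_deg {E : Type u} [Field E] : ∀ (l : List E) (F : Type u) [Field F] [Algebra F E]
    [FiniteDimensional F E], IntermediateField.adjoin F {x | x ∈ l} = ⊤ →
    towerNorm 0 l F one0 = Module.finrank F E • one0 := by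
  intro l
  induction l with
  | nil =>
    intro F _ _ _ h
    have hb : Function.Bijective (algebraMap F E) := by
      refine ⟨(algebraMap F E).injective, fun y => ?_⟩
      have hy : y ∈ IntermediateField.adjoin F {x | x ∈ ([] : List E)} := by
        rw [h]
        trivial
      have h0 : {x | x ∈ ([] : List E)} = (∅ : Set E) := by
        ext
        simp
      rw [h0, IntermediateField.adjoin_empty, IntermediateField.mem_bot] at hy
      exact hy
    unfold towerNorm
    rw [dif_pos hb, map_one0]
    have h1 : Module.finrank F E = 1 := by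
      rw [← (LinearEquiv.ofBijective (Algebra.linearMap F E) hb).finrank_eq, Module.finrank_self]
    rw [h1, one_smul]
  | cons x l ih =>
    intro F _ _ _ h
    unfold towerNorm
    rw [AddMonoidHom.comp_apply, ih (IntermediateField.adjoin F {x}) ?_, map_nsmul,
      simple_deg x (Algebra.IsIntegral.isIntegral x), smul_smul, mul_comm,
      Module.finrank_mul_finrank F (IntermediateField.adjoin F {x}) E]
    have h1 := IntermediateField.adjoin_adjoin_left F ({x} : Set E) {y | y ∈ l}
    have h2 : ({x} : Set E) ∪ {y | y ∈ l} = {y | y ∈ x :: l} := by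
      ext y
      simp
    rw [h2, h] at h1
    rw [eq_top_iff]
    intro y _
    have h3 : y ∈ IntermediateField.restrictScalars F
        (IntermediateField.adjoin (IntermediateField.adjoin F {x}) {y | y ∈ l}) := by
      rw [h1]
      trivial
    exact h3

theorem adjoin_basis (F E : Type u) [Field F] [Field E] [Algebra F E] [FiniteDimensional F E] :
    IntermediateField.adjoin F {x | x ∈ List.ofFn (Module.finBasis F E)} = ⊤ := by
  rw [eq_top_iff]
  intro y _
  rw [← (Module.finBasis F E).sum_repr y]
  refine sum_mem fun i _ => ?_
  refine IntermediateField.smul_mem _ (IntermediateField.subset_adjoin F _ ?_)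
  change _ ∈ List.ofFn (Module.finBasis F E)
  rw [List.mem_ofFn]
  exact ⟨i, rfl⟩

theorem pf_DEGE : MK.T_DEGE.{u} := by
  intro F E _ _ _ hfd
  unfold MK.norm
  rw [dif_pos hfd]
  exact tower_deg _ F (adjoin_basis F E)

end Pool.Agent.H14.KM
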